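import Mathlib
import Pool.Agent.Lib_helper18.Hecke.Defs

/-!
# Braid relations of operators `q + e ⊗ φ`
-/

set_option autoImplicit false

open Pool.Agent.HeckeCox

namespace Pool.Agent.PWM

/-! ### Alternating products -/

theorem altProd_two {G : Type*} [Monoid G] (x y : G) (n : ℕ) :
    altProd x y (n + 2) = x * y * altProd x y n := by
  rw [altProd, altProd, mul_assoc]

theorem altProd_even {G : Type*} [Monoid G] (x y : G) (k : ℕ) :
    altProd x y (2 * k) = (x * y) ^ k := by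
  induction k with
  | zero => simp [altProd]
  | succ k ih =>
    rw [show 2 * (k + 1) = 2 * k + 2 by ring, altProd_two, ih, pow_succ']

theorem altProd_odd {G : Type*} [Monoid G] (x y : G) (k : ℕ) :
    altProd x y (2 * k + 1) = (x * y) ^ k * x := by
  induction k with
  | zero => simp [altProd]
  | succ k ih =>
    rw [show 2 * (k + 1) + 1 = (2 * k + 1) + 2 by ring, altProd_two, ih, pow_succ',
      ← mul_assoc]

/-! ### Two by two matrices -/

section mat

variable (q c d : ℂ)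

/-- the first matrix -/
noncomputable def mA : Matrix (Fin 2) (Fin 2) ℂ := !![-q⁻¹, c; 0, q]

/-- the second matrix -/
noncomputable def mB : Matrix (Fin 2) (Fin 2) ℂ := !![q, 0; d, -q⁻¹]

variable {q}

theorem mA_mul_mB (hq : q ≠ 0) : mA q c * mB q d = !![c * d - 1, -(q⁻¹ * c); q * d, -1] := by
  ext i j
  fin_cases i <;> fin_cases j <;> simp [mA, mB, Matrix.mul_apply, Fin.sum_univ_two, hq] <;> ring

theorem mB_mul_mA (hq : q ≠ 0) : mB q d * mA q c = !![-1, q * c; -(q⁻¹ * d), c * d - 1] := by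
  ext i j
  fin_cases i <;> fin_cases j <;> simp [mA, mB, Matrix.mul_apply, Fin.sum_univ_two, hq] <;> ring

theorem sq_AB (hq : q ≠ 0) :
    (mA q c * mB q d) * (mA q c * mB q d) = (c * d - 2) • (mA q c * mB q d) - 1 := by
  rw [mA_mul_mB c d hq]
  ext i j
  fin_cases i <;> fin_cases j <;> simp [Matrix.mul_apply, Fin.sum_univ_two] <;> field_simp <;> ring

theorem sq_BA (hq : q ≠ 0) :
    (mB q d * mA q c) * (mB q d * mA q c) = (c * d - 2) • (mB q d * mA q c) - 1 := by
  rw [mB_mul_mA c d hq]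
  ext i j
  fin_cases i <;> fin_cases j <;> simp [Matrix.mul_apply, Fin.sum_univ_two] <;> field_simp <;> ring

theorem three (hq : q ≠ 0) :
    mA q c * mB q d * mA q c - mB q d * mA q c * mB q d =
      (c * d - 1) • (mA q c - mB q d) := by
  rw [mA_mul_mB c d hq, mB_mul_mA c d hq]
  ext i j
  fin_cases i <;> fin_cases j <;>
    simp [mA, mB, Matrix.mul_apply, Fin.sum_univ_two] <;> field_simp <;> ring

end mat

/-- powers of an element with `X² = 2 cos φ X - 1` -/
theorem pow_sin {R : Type*} [Ring R] [Algebra ℂ R] (X : R) (φ : ℝ)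
    (hX : X * X = ((2 * Real.cos φ : ℝ) : ℂ) • X - 1) (k : ℕ) :
    ((Real.sin φ : ℝ) : ℂ) • X ^ (k + 1) =
      ((Real.sin ((k + 1 : ℕ) * φ) : ℝ) : ℂ) • X - ((Real.sin (k * φ) : ℝ) : ℂ) • (1 : R) := by
  induction k with
  | zero => simp
  | succ k ih =>
    have h1 : Real.sin ((k + 1 + 1 : ℕ) * φ) =
        2 * Real.cos φ * Real.sin ((k + 1 : ℕ) * φ) - Real.sin (k * φ) := by
      have e1 : ((k + 1 + 1 : ℕ) : ℝ) * φ = ((k + 1 : ℕ) : ℝ) * φ + φ := by push_cast; ring
      have e2 : (k : ℝ) * φ = ((k + 1 : ℕ) : ℝ) * φ - φ := by push_cast; ring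
      rw [e1, e2, Real.sin_add, Real.sin_sub]
      ring
    rw [pow_succ, ← smul_mul_assoc, ih, sub_mul, smul_mul_assoc, hX, smul_mul_assoc, one_mul,
      h1, smul_sub, smul_smul]
    push_cast
    rw [sub_smul, mul_comm (Complex.sin _) (2 * Complex.cos _)]
    abel

theorem braid_mat (q c d : ℂ) (hq : q ≠ 0) (m : ℕ) (hm : 3 ≤ m)
    (hc : c * d = ((4 * Real.cos (Real.pi / m) ^ 2 : ℝ) : ℂ)) :
    altProd (mA q c) (mB q d) m = altProd (mB q d) (mA q c) m := by
  have hm0 : (0 : ℝ) < m := by exact_mod_cast (by omega : 0 < m)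
  have hm3 : (3 : ℝ) ≤ m := by exact_mod_cast hm
  set φ : ℝ := 2 * Real.pi / m with hφ
  have hsin : 0 < Real.sin φ := by
    apply Real.sin_pos_of_pos_of_lt_pi
    · positivity
    · rw [hφ, div_lt_iff₀ hm0]
      nlinarith [Real.pi_pos]
  have hsin' : ((Real.sin φ : ℝ) : ℂ) ≠ 0 := by exact_mod_cast hsin.ne'
  have htr : c * d - 2 = ((2 * Real.cos φ : ℝ) : ℂ) := by
    rw [hc]
    have e : Real.cos φ = 2 * Real.cos (Real.pi / m) ^ 2 - 1 := by
      rw [hφ, show 2 * Real.pi / m = 2 * (Real.pi / m) by ring, Real.cos_two_mul]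
    rw [e]
    push_cast
    ring
  have hX := sq_AB c d hq
  have hY := sq_BA c d hq
  rw [htr] at hX hY
  rcases Nat.even_or_odd' m with ⟨k, hk | hk⟩
  · obtain ⟨j, rfl⟩ : ∃ j, k = j + 1 := ⟨k - 1, by omega⟩
    have hmj : (m : ℝ) = 2 * ((j : ℝ) + 1) := by rw [hk]; push_cast; ring
    have a1 : ((j + 1 : ℕ) : ℝ) * φ = Real.pi := by
      rw [hφ, hmj]
      push_cast
      field_simp
    have a2 : (j : ℝ) * φ = Real.pi - φ := by
      have : ((j + 1 : ℕ) : ℝ) * φ = (j : ℝ) * φ + φ := by push_cast; ring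
      rw [this] at a1
      linarith
    have b : ∀ X : Matrix (Fin 2) (Fin 2) ℂ, X * X = ((2 * Real.cos φ : ℝ) : ℂ) • X - 1 →
        X ^ (j + 1) = -1 := by
      intro X hX
      have h := pow_sin X φ hX j
      rw [a1, a2, Real.sin_pi, Real.sin_pi_sub, Complex.ofReal_zero, zero_smul, zero_sub,
        ← smul_neg] at h
      exact smul_right_injective _ hsin' h
    rw [hk, altProd_even, altProd_even, b _ hX, b _ hY]
  · obtain ⟨j, rfl⟩ : ∃ j, k = j + 1 := ⟨k - 1, by omega⟩
    have hmj : (m : ℝ) = 2 * ((j : ℝ) + 1) + 1 := by rw [hk]; push_cast; ring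
    have a1 : ((j + 1 : ℕ) : ℝ) * φ = Real.pi - Real.pi / m := by
      rw [hφ, hmj]
      push_cast
      field_simp
      ring
    have a2 : (j : ℝ) * φ = Real.pi - 3 * (Real.pi / m) := by
      have h1 : ((j + 1 : ℕ) : ℝ) * φ = (j : ℝ) * φ + φ := by push_cast; ring
      rw [h1] at a1
      have h2 : φ = 2 * (Real.pi / m) := by rw [hφ]; ring
      linarith
    have h3 : Real.sin (3 * (Real.pi / m)) =
        Real.sin (Real.pi / m) * (4 * Real.cos (Real.pi / m) ^ 2 - 1) := by
      rw [Real.sin_three_mul]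
      have := Real.sin_sq_add_cos_sq (Real.pi / m)
      linear_combination (-4 * Real.sin (Real.pi / m)) * this
    have b : ∀ X : Matrix (Fin 2) (Fin 2) ℂ, X * X = ((2 * Real.cos φ : ℝ) : ℂ) • X - 1 →
        ((Real.sin φ : ℝ) : ℂ) • X ^ (j + 1) =
          ((Real.sin (Real.pi / m) : ℝ) : ℂ) • (X - (c * d - 1) • 1) := by
      intro X hX
      have h := pow_sin X φ hX j
      rw [a1, a2, Real.sin_pi_sub, Real.sin_pi_sub, h3] at h
      rw [h, smul_sub, smul_smul, hc]
      push_cast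
      rfl
    have hA := b _ hX
    have hB := b _ hY
    rw [hk, altProd_odd, altProd_odd]
    apply smul_right_injective _ hsin'
    show ((Real.sin φ : ℝ) : ℂ) • ((mA q c * mB q d) ^ (j + 1) * mA q c) =
      ((Real.sin φ : ℝ) : ℂ) • ((mB q d * mA q c) ^ (j + 1) * mB q d)
    rw [← smul_mul_assoc, ← smul_mul_assoc, hA, hB, smul_mul_assoc, smul_mul_assoc]
    congr 1
    rw [sub_mul, sub_mul, smul_mul_assoc, smul_mul_assoc, one_mul, one_mul]
    have h := three c d hq
    rw [smul_sub] at h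
    have e : mA q c * mB q d * mA q c - (c * d - 1) • mA q c -
        (mB q d * mA q c * mB q d - (c * d - 1) • mB q d) = 0 := by
      rw [sub_sub_sub_comm, h]
      exact sub_self _
    exact sub_eq_zero.1 e

/-! ### The operators `q + e ⊗ φ` -/

section op

variable {V : Type*} [AddCommGroup V] [Module ℂ V]

/-- the operator `x ↦ q x + φ(x) e` -/
noncomputable def Tq (q : ℂ) (e : V) (φ : V →ₗ[ℂ] ℂ) : Module.End ℂ V :=
  q • 1 + φ.smulRight e

@[simp] theorem Tq_apply (q : ℂ) (e : V) (φ : V →ₗ[ℂ] ℂ) (x : V) :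
    Tq q e φ x = q • x + φ x • e := by
  simp [Tq]

theorem Tq_quad (q : ℂ) (hq : q ≠ 0) (e : V) (φ : V →ₗ[ℂ] ℂ) (he : φ e = -(q + q⁻¹)) :
    Tq q e φ * Tq q e φ = 1 + (q - q⁻¹) • Tq q e φ := by
  ext x
  simp only [Module.End.mul_apply, Tq_apply, LinearMap.add_apply, Module.End.one_apply,
    LinearMap.smul_apply, map_add, map_smul, smul_eq_mul, he]
  have e2 : (q * q⁻¹) • x = x := by rw [mul_inv_cancel₀ hq, one_smul]
  linear_combination (norm := module) e2

theorem Tq_comm (q : ℂ) (e f : V) (φ ψ : V →ₗ[ℂ] ℂ) (h1 : φ f = 0) (h2 : ψ e = 0) :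
    Tq q e φ * Tq q f ψ = Tq q f ψ * Tq q e φ := by
  ext x
  simp only [Module.End.mul_apply, Tq_apply, map_add, map_smul, smul_eq_mul, h1, h2]
  module

theorem altProd_fix (q : ℂ) (A B : Module.End ℂ V) (y : V) (hA : A y = q • y) (hB : B y = q • y)
    (n : ℕ) : altProd A B n y = q ^ n • y ∧ altProd B A n y = q ^ n • y := by
  induction n with
  | zero => simp [altProd]
  | succ n ih =>
    constructor
    · rw [altProd, Module.End.mul_apply, ih.2, map_smul, hA, smul_smul, pow_succ]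
    · rw [altProd, Module.End.mul_apply, ih.1, map_smul, hB, smul_smul, pow_succ]

/-- the plane spanned by `e`, `f` -/
noncomputable def io (e f : V) : (Fin 2 → ℂ) →ₗ[ℂ] V :=
  (LinearMap.proj 0).smulRight e + (LinearMap.proj 1).smulRight f

theorem io_apply (e f : V) (v : Fin 2 → ℂ) : io e f v = v 0 • e + v 1 • f := by
  simp [io]

theorem altProd_io (e f : V) (A B : Module.End ℂ V) (A' B' : Matrix (Fin 2) (Fin 2) ℂ)
    (hA : ∀ v, A (io e f v) = io e f (A'.mulVec v))
    (hB : ∀ v, B (io e f v) = io e f (B'.mulVec v)) (n : ℕ) :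
    (∀ v, altProd A B n (io e f v) = io e f ((altProd A' B' n).mulVec v)) ∧
      ∀ v, altProd B A n (io e f v) = io e f ((altProd B' A' n).mulVec v) := by
  induction n with
  | zero => simp [altProd]
  | succ n ih =>
    constructor
    · intro v
      rw [altProd, Module.End.mul_apply, ih.2, hA, altProd, Matrix.mulVec_mulVec]
    · intro v
      rw [altProd, Module.End.mul_apply, ih.1, hB, altProd, Matrix.mulVec_mulVec]

/-- **The braid relation.** -/
theorem Tq_braid (q : ℂ) (hq : q ≠ 0) (e f : V) (φ ψ : V →ₗ[ℂ] ℂ) (he : φ e = -(q + q⁻¹))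
    (hf : ψ f = -(q + q⁻¹)) (m : ℕ) (hm : 3 ≤ m)
    (hc : φ f * ψ e = ((4 * Real.cos (Real.pi / m) ^ 2 : ℝ) : ℂ))
    (hd : (q + q⁻¹) ^ 2 ≠ ((4 * Real.cos (Real.pi / m) ^ 2 : ℝ) : ℂ)) :
    altProd (Tq q e φ) (Tq q f ψ) m = altProd (Tq q f ψ) (Tq q e φ) m := by
  have hD : (q + q⁻¹) ^ 2 - φ f * ψ e ≠ 0 := by
    rw [hc]
    exact sub_ne_zero.2 hd
  ext x
  set δ : ℂ := q + q⁻¹ with hδ
  set D : ℂ := δ ^ 2 - φ f * ψ e with hDef
  set a : ℂ := (-δ * φ x - φ f * ψ x) / D with ha
  set b : ℂ := (-δ * ψ x - ψ e * φ x) / D with hb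
  set v : Fin 2 → ℂ := ![a, b] with hv
  have hx : x = io e f v + (x - io e f v) := by abel
  have hio : io e f v = a • e + b • f := by rw [io_apply]; simp [hv]
  have hy1 : φ (x - io e f v) = 0 := by
    rw [hio, map_sub, map_add, map_smul, map_smul, he, smul_eq_mul, smul_eq_mul, ha, hb]
    field_simp
    rw [hDef]
    ring
  have hy2 : ψ (x - io e f v) = 0 := by
    rw [hio, map_sub, map_add, map_smul, map_smul, hf, smul_eq_mul, smul_eq_mul, ha, hb]
    field_simp
    rw [hDef]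
    ring
  have hfix := altProd_fix q (Tq q e φ) (Tq q f ψ) (x - io e f v)
    (by rw [Tq_apply, hy1, zero_smul, add_zero]) (by rw [Tq_apply, hy2, zero_smul, add_zero]) m
  have hpl := altProd_io e f (Tq q e φ) (Tq q f ψ) (mA q (φ f)) (mB q (ψ e))
    (by
      intro w
      rw [Tq_apply, io_apply, io_apply, map_add, map_smul, map_smul, he]
      simp [mA, Matrix.mulVec, dotProduct, Fin.sum_univ_two, hδ]
      module)
    (by
      intro w
      rw [Tq_apply, io_apply, io_apply, map_add, map_smul, map_smul, hf]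
      simp [mB, Matrix.mulVec, dotProduct, Fin.sum_univ_two, hδ]
      module) m
  rw [hx, map_add, map_add, hfix.1, hfix.2, hpl.1, hpl.2, braid_mat q _ _ hq m hm hc]

end op

end Pool.Agent.PWM
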