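import Mathlib

/-!
# Descent sets in the positive cone

`g s x` changes only the coordinate `s` of `x`, in a positive way. The set
`Des x = {s | λ_s L_s(x) < a_s x_s}` sees the left descents of a word in the trace monoid.
-/

set_option autoImplicit false

namespace Pool.Agent.PWM

variable {B : Type*} (M : CoxeterMatrix B)

/-- The relations `x_s x_t = x_t x_s` for all `s`, `t` with `m_{st} = 2`. -/
def traceRels : FreeMonoid B → FreeMonoid B → Prop := fun a b =>
  ∃ s t : B, M s t = 2 ∧ a = FreeMonoid.of s * FreeMonoid.of t ∧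
    b = FreeMonoid.of t * FreeMonoid.of s

/-- The trace monoid of the Coxeter matrix: generators `x_s`, relations `x_s x_t = x_t x_s` for
all `s`, `t` with `m_{st} = 2`. -/
abbrev TraceMonoid : Type _ := PresentedMonoid (traceRels M)

/-- The generator `x_s`. -/
abbrev tg (s : B) : TraceMonoid M := PresentedMonoid.of (traceRels M) s

/-- the element of the trace monoid given by a word -/
noncomputable def tw (w : List B) : TraceMonoid M := (w.map (tg M)).prod

theorem tw_cons (s : B) (w : List B) : tw M (s :: w) = tg M s * tw M w := by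
  simp [tw]

theorem tg_comm {s t : B} (h : M s t = 2) : tg M s * tg M t = tg M t * tg M s := by
  have e : PresentedMonoid.mk (traceRels M) (FreeMonoid.of s * FreeMonoid.of t) =
      PresentedMonoid.mk (traceRels M) (FreeMonoid.of t * FreeMonoid.of s) := by
    apply Quotient.sound
    exact ConGen.Rel.of _ _ ⟨s, t, h, rfl, rfl⟩
  rw [map_mul, map_mul] at e
  exact e

theorem exists_word (z : TraceMonoid M) : ∃ w : List B, z = tw M w := by
  induction z using PresentedMonoid.inductionOn with
  | h a =>
    refine ⟨a.toList, ?_⟩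
    induction a using FreeMonoid.inductionOn' with
    | one => simp [tw]
    | of_mul x xs ih =>
      rw [map_mul, ih]
      simp [tw, tg, PresentedMonoid.of]

/-- the coefficients of `L_s`: `1` at the extra coordinate, `2 cos (π / m_{st})` at `t ≠ s` (`2` if
`m_{st}` is infinite), `0` at `s` -/
noncomputable def coef (s : B) : Option B → ℝ
  | none => 1
  | some t => by
      classical
      exact if t = s then 0 else if M s t = 0 then 2 else 2 * Real.cos (Real.pi / M s t)

theorem coef_none (s : B) : coef M s none = 1 := rfl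

theorem coef_self (s : B) : coef M s (some s) = 0 := by
  simp [coef]

theorem coef_two {s t : B} (h : M s t = 2) : coef M s (some t) = 0 := by
  classical
  simp [coef, h]

theorem coef_three {s t : B} (h : 3 ≤ M s t) :
    coef M s (some t) = 2 * Real.cos (Real.pi / M s t) := by
  classical
  have h1 : t ≠ s := by
    rintro rfl
    rw [M.diagonal] at h
    omega
  have h2 : M s t ≠ 0 := by omega
  simp [coef, h1, h2]

theorem half_le_cos {m : ℕ} (h : 3 ≤ m) : 1 / 2 ≤ Real.cos (Real.pi / m) := by
  have h3 : (3 : ℝ) ≤ m := by exact_mod_cast h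
  rw [← Real.cos_pi_div_three]
  apply Real.cos_le_cos_of_nonneg_of_le_pi
  · positivity
  · have := Real.pi_pos
    linarith
  · apply div_le_div_of_nonneg_left Real.pi_pos.le (by norm_num) h3

theorem one_le_coef {s t : B} (hst : t ≠ s) (h : M s t ≠ 2) : 1 ≤ coef M s (some t) := by
  classical
  by_cases h0 : M s t = 0
  · simp [coef, hst, h0]
  · have h1 : M s t ≠ 1 := by
      intro h1
      exact hst ((M.off_diagonal s t).mt (by simpa using h1) |> fun h => by
        by_contra h'
        exact h (fun e => h' e.symm)) 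
    have h3 : 3 ≤ M s t := by omega
    rw [coef_three M h3]
    have := half_le_cos h3
    linarith

theorem coef_nonneg (s : B) (i : Option B) : 0 ≤ coef M s i := by
  cases i with
  | none => rw [coef_none]; norm_num
  | some t =>
    by_cases h : t = s
    · rw [h, coef_self]
    · by_cases h2 : M s t = 2
      · rw [coef_two M h2]
      · exact zero_le_one.trans (one_le_coef M h h2)

/-- the linear form `L_s` -/
noncomputable def Lf (s : B) : (Option B →₀ ℝ) →ₗ[ℝ] ℝ := Finsupp.linearCombination ℝ (coef M s)

theorem Lf_single (s : B) (i : Option B) (r : ℝ) :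
    Lf M s (Finsupp.single i r) = r * coef M s i := by
  simp [Lf]

theorem le_Lf (s : B) (x : Option B →₀ ℝ) (hx : ∀ i, 0 ≤ x i) (i : Option B) :
    coef M s i * x i ≤ Lf M s x := by
  classical
  rw [Lf, Finsupp.linearCombination_apply, Finsupp.sum]
  by_cases h : i ∈ x.support
  · have := Finset.single_le_sum (f := fun j => x j • coef M s j)
      (fun j _ => mul_nonneg (hx j) (coef_nonneg M s j)) h
    rw [mul_comm]
    exact this
  · rw [Finsupp.notMem_support_iff.1 h, mul_zero]
    exact Finset.sum_nonneg fun j _ => mul_nonneg (hx j) (coef_nonneg M s j)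

theorem Lf_nonneg (s : B) (x : Option B →₀ ℝ) (hx : ∀ i, 0 ≤ x i) : 0 ≤ Lf M s x := by
  have := le_Lf M s x hx none
  rw [coef_none, one_mul] at this
  exact (hx none).trans this

/-- the parameters of the positive operators -/
structure Par where
  /-- the eigenvalue on the hyperplane -/
  a : B → ℝ
  /-- the eigenvalue on the line -/
  b : B → ℝ
  /-- the factor of `L_s` -/
  l : B → ℝ
  apos : ∀ s, 0 < a s
  bpos : ∀ s, 0 < b s
  le : ∀ s, a s ≤ l s

variable {M}

variable (p : Par (B := B))

/-- the positive operators -/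
noncomputable def gs (M : CoxeterMatrix B) (s : B) (x : Option B →₀ ℝ) : Option B →₀ ℝ :=
  p.a s • x + Finsupp.single (some s) ((p.b s - p.a s) * x (some s) + p.l s * Lf M s x)

/-- the action of words -/
noncomputable def gw (M : CoxeterMatrix B) (w : List B) (x : Option B →₀ ℝ) : Option B →₀ ℝ :=
  w.foldr (gs p M) x

theorem gw_cons (s : B) (w : List B) (x : Option B →₀ ℝ) :
    gw p M (s :: w) x = gs p M s (gw p M w x) := rfl

theorem gs_self (s : B) (x : Option B →₀ ℝ) :
    gs p M s x (some s) = p.b s * x (some s) + p.l s * Lf M s x := by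
  simp only [gs, Finsupp.add_apply, Finsupp.smul_apply, Finsupp.single_eq_same, smul_eq_mul]
  ring

theorem gs_ne (s : B) (x : Option B →₀ ℝ) (i : Option B) (h : i ≠ some s) :
    gs p M s x i = p.a s * x i := by
  classical
  simp [gs, Finsupp.single_apply, Ne.symm h]

theorem Lf_gs_self (s : B) (x : Option B →₀ ℝ) : Lf M s (gs p M s x) = p.a s * Lf M s x := by
  rw [gs, map_add, map_smul, Lf_single, coef_self, mul_zero, add_zero, smul_eq_mul]

theorem Lf_gs_two {s t : B} (h : M t s = 2) (x : Option B →₀ ℝ) :
    Lf M t (gs p M s x) = p.a s * Lf M t x := by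
  rw [gs, map_add, map_smul, Lf_single, coef_two M h, mul_zero, add_zero, smul_eq_mul]

/-- the positive cone -/
def Cone (F : Set B) : Set (Option B →₀ ℝ) :=
  {x | (∀ i, 0 ≤ x i) ∧ 0 < x none ∧ ∀ t ∈ F, 0 < x (some t)}

theorem gs_mem {F : Set B} {x : Option B →₀ ℝ} (hx : x ∈ Cone F) (s : B) :
    gs p M s x ∈ Cone F := by
  obtain ⟨h1, h2, h3⟩ := hx
  have hL := Lf_nonneg M s x h1
  have hL' : 0 < Lf M s x := by
    have := le_Lf M s x h1 none
    rw [coef_none, one_mul] at this
    exact h2.trans_le this
  have hl : 0 < p.l s := (p.apos s).trans_le (p.le s)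
  refine ⟨fun i => ?_, ?_, fun t ht => ?_⟩
  · by_cases h : i = some s
    · rw [h, gs_self]
      exact add_nonneg (mul_nonneg (p.bpos s).le (h1 _)) (mul_nonneg hl.le hL)
    · rw [gs_ne p s x i h]
      exact mul_nonneg (p.apos s).le (h1 i)
  · rw [gs_ne p s x none (by simp)]
    exact mul_pos (p.apos s) h2
  · by_cases h : t = s
    · rw [h, gs_self]
      exact add_pos_of_nonneg_of_pos (mul_nonneg (p.bpos s).le (h1 _)) (mul_pos hl hL')
    · rw [gs_ne p s x (some t) (by simpa using h)]
      exact mul_pos (p.apos s) (h3 t ht)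

theorem gw_mem {F : Set B} {x : Option B →₀ ℝ} (hx : x ∈ Cone F) (w : List B) :
    gw p M w x ∈ Cone F := by
  induction w with
  | nil => exact hx
  | cons s w ih => exact gs_mem p ih s

/-- the descents of a vector -/
def Des (M : CoxeterMatrix B) (x : Option B →₀ ℝ) : Set B :=
  {s | p.l s * Lf M s x < p.a s * x (some s)}

theorem self_mem_Des {F : Set B} {x : Option B →₀ ℝ} (hx : x ∈ Cone F) {s : B} (hs : s ∈ F) :
    s ∈ Des p M (gs p M s x) := by
  obtain ⟨h1, h2, h3⟩ := hx
  show p.l s * Lf M s (gs p M s x) < p.a s * gs p M s x (some s)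
  rw [Lf_gs_self, gs_self]
  have := mul_pos (p.apos s) (mul_pos (p.bpos s) (h3 s hs))
  nlinarith

theorem Des_two {s t : B} (hts : t ≠ s) (h : M t s = 2) (x : Option B →₀ ℝ) :
    t ∈ Des p M (gs p M s x) ↔ t ∈ Des p M x := by
  show p.l t * Lf M t (gs p M s x) < p.a t * gs p M s x (some t) ↔
    p.l t * Lf M t x < p.a t * x (some t)
  rw [Lf_gs_two p h, gs_ne p s x (some t) (by simpa using hts)]
  have ha := p.apos s
  constructor
  · intro h
    have h' : p.a s * (p.l t * Lf M t x) < p.a s * (p.a t * x (some t)) := by linarith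
    exact lt_of_mul_lt_mul_left h' ha.le
  · intro h
    have h' := mul_lt_mul_of_pos_left h ha
    linarith

theorem notMem_Des {F : Set B} {x : Option B →₀ ℝ} (hx : x ∈ Cone F) {s t : B} (hts : t ≠ s)
    (h : M t s ≠ 2) : t ∉ Des p M (gs p M s x) := by
  have hy := gs_mem p (M := M) hx s
  obtain ⟨h1, h2, h3⟩ := hy
  obtain ⟨g1, g2, g3⟩ := hx
  show ¬ (p.l t * Lf M t (gs p M s x) < p.a t * gs p M s x (some t))
  rw [not_lt]
  set y := gs p M s x with hydef
  have h' : M s t ≠ 2 := by rwa [M.symmetric s t]
  have c1 := one_le_coef M (Ne.symm hts) h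
  have c2 := one_le_coef M hts h'
  have e1 : coef M t (some s) * y (some s) ≤ Lf M t y := le_Lf M t y h1 (some s)
  have e2 : coef M s (some t) * y (some t) ≤ Lf M s y := le_Lf M s y h1 (some t)
  have e3 : y (some s) = p.b s * x (some s) + p.l s * Lf M s x := gs_self p s x
  have e4 : Lf M s y = p.a s * Lf M s x := Lf_gs_self p s x
  have n1 : 0 ≤ p.b s * x (some s) := mul_nonneg (p.bpos s).le (g1 _)
  have n2 : 0 ≤ Lf M s x := Lf_nonneg M s x g1
  have n3 : 0 ≤ y (some s) := h1 _
  have n4 : 0 ≤ y (some t) := h1 _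
  have f1 : y (some s) ≤ Lf M t y := by nlinarith
  have f2 : y (some t) ≤ Lf M s y := by nlinarith
  have f3 : p.a s * Lf M s x ≤ p.l s * Lf M s x := mul_le_mul_of_nonneg_right (p.le s) n2
  have f4 : y (some t) ≤ Lf M t y := by linarith
  have f5 : p.a t * y (some t) ≤ p.a t * Lf M t y := mul_le_mul_of_nonneg_left f4 (p.apos t).le
  have f6 : p.a t * Lf M t y ≤ p.l t * Lf M t y :=
    mul_le_mul_of_nonneg_right (p.le t) (n4.trans f4)
  linarith

theorem exists_of_Des {F : Set B} {x : Option B →₀ ℝ} (hx : x ∈ Cone F)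
    (hD : ∀ t, t ∉ Des p M x) (w : List B) (hw : ∀ s ∈ w, s ∈ F) (t : B)
    (ht : t ∈ Des p M (gw p M w x)) :
    ∃ w' : List B, (∀ s ∈ w', s ∈ F) ∧ tw M w = tg M t * tw M w' := by
  induction w generalizing t with
  | nil => exact absurd ht (hD t)
  | cons s w ih =>
    have hw' : ∀ s ∈ w, s ∈ F := fun r hr => hw r (List.mem_cons_of_mem _ hr)
    have hs : s ∈ F := hw s List.mem_cons_self
    rw [gw_cons] at ht
    by_cases hts : t = s
    · subst hts
      exact ⟨w, hw', tw_cons M t w⟩
    · by_cases h2 : M t s = 2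
      · rw [Des_two p hts h2] at ht
        obtain ⟨w', h3, h4⟩ := ih hw' t ht
        refine ⟨s :: w', ?_, ?_⟩
        · intro r hr
          rcases List.mem_cons.1 hr with rfl | hr
          · exact hs
          · exact h3 r hr
        · rw [tw_cons, h4, tw_cons, ← mul_assoc, ← mul_assoc, tg_comm M h2]
      · exact absurd ht (notMem_Des p (gw_mem p hx w) hts h2)

/-- **The trace monoid is detected.** `R` is a homomorphism to a group, `Φ` a function on the group
whose value at the image of a word is the image of `x` under the positive operators. -/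
theorem detect {G : Type*} [Group G] (R : TraceMonoid M →* G) {F : Set B}
    {x : Option B →₀ ℝ} (hx : x ∈ Cone F) (hD : ∀ t, t ∉ Des p M x) (Φ : G → Option B → ℝ)
    (hΦ : ∀ w : List B, ∀ i, Φ (R (tw M w)) i = gw p M w x i) (w w' : List B)
    (hw : ∀ s ∈ w, s ∈ F) (hw' : ∀ s ∈ w', s ∈ F) (h : R (tw M w) = R (tw M w')) :
    tw M w = tw M w' := by
  have key : ∀ v v' : List B, R (tw M v) = R (tw M v') → gw p M v x = gw p M v' x := by
    intro v v' hv
    ext i
    rw [← hΦ, ← hΦ, hv]
  induction w generalizing w' with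
  | nil =>
    cases w' with
    | nil => rfl
    | cons s v =>
      have h1 := key _ _ h
      have h2 : s ∈ Des p M (gw p M (s :: v) x) :=
        self_mem_Des p (gw_mem p hx v) (hw' s List.mem_cons_self)
      rw [← h1] at h2
      exact absurd h2 (hD s)
  | cons s w ih =>
    have h1 := key _ _ h
    have h2 : s ∈ Des p M (gw p M (s :: w) x) :=
      self_mem_Des p (gw_mem p hx w) (hw s List.mem_cons_self)
    rw [h1] at h2
    obtain ⟨v, hv, h3⟩ := exists_of_Des p hx hD w' hw' s h2
    have h4 : R (tw M w) = R (tw M v) := by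
      rw [tw_cons, h3, map_mul, map_mul] at h
      exact mul_left_cancel h
    rw [tw_cons, h3, ih v (fun r hr => hw r (List.mem_cons_of_mem _ hr)) hv h4]

end Pool.Agent.PWM
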