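import Pool.Agent.PWM.Rep

/-!
# Large powers of generators no two of which commute
-/

set_option autoImplicit false

open Pool.Agent.HeckeCox Monoid.CoprodI
open scoped Pointwise Function

namespace Pool.Agent.PWM

variable {B : Type*} (M : CoxeterMatrix B)

theorem coef_le_two (s : B) (i : Option B) : coef M s i ≤ 2 := by
  classical
  cases i with
  | none => rw [coef_none]; norm_num
  | some t =>
    by_cases h : t = s
    · rw [h, coef_self]; norm_num
    · by_cases h0 : M s t = 0
      · simp [coef, h, h0]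
      · have h1 := Real.cos_le_one (Real.pi / M s t)
        simp only [coef, h, h0, if_false]
        linarith

/-- the representation at `v = i` -/
noncomputable def DI : RD M where
  q := -Complex.I
  hq := neg_ne_zero.2 Complex.I_ne_zero
  be := fun _ => 1
  hbe := by intro s t _; norm_num
  hd := by
    intro m hm h
    have hI : (-Complex.I)⁻¹ = Complex.I := by rw [inv_neg, Complex.inv_I, neg_neg]
    rw [hI] at h
    have h1 : (0 : ℝ) = 4 * Real.cos (Real.pi / m) ^ 2 := by
      have h2 : ((0 : ℝ) : ℂ) = ((4 * Real.cos (Real.pi / m) ^ 2 : ℝ) : ℂ) := by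
        rw [← h]
        simp
      exact_mod_cast h2
    have h2 := half_le_cos hm
    nlinarith

/-- powers of the generators at `v = i` -/
theorem DI_zpow (s : B) (n : ℤ) (x : Option B →₀ ℂ) :
    ((ur (DI M) (hunit M s ^ n) : (Module.End ℂ (Option B →₀ ℂ))ˣ) :
      Module.End ℂ (Option B →₀ ℂ)) x =
        (-Complex.I) ^ n • x + ((n : ℂ) * (-Complex.I) ^ (n - 1) * Lc M s x) • ee s := by
  have hI : (-Complex.I)⁻¹ = Complex.I := by rw [inv_neg, Complex.inv_I, neg_neg]
  have hI0 : (-Complex.I) ≠ 0 := neg_ne_zero.2 Complex.I_ne_zero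
  have hz := Ts_zpow (DI M) s (fun n => (n : ℂ) * (-Complex.I) ^ (n - 1))
    (by simp) (by
      intro n
      show ((n + 1 : ℤ) : ℂ) * (-Complex.I) ^ (n + 1 - 1) =
        -(-Complex.I)⁻¹ * ((n : ℂ) * (-Complex.I) ^ (n - 1)) + (-Complex.I) ^ n
      rw [hI, add_sub_cancel_right]
      have h1 : (-Complex.I) ^ n = (-Complex.I) ^ (n - 1) * (-Complex.I) := by
        rw [← zpow_add_one₀ hI0, sub_add_cancel]
      push_cast
      rw [h1]
      ring) n x
  rw [hz]
  have h2 : ph (DI M) s x = Lc M s x := by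
    have e : ph (DI M) s = (-(-Complex.I + (-Complex.I)⁻¹)) •
        (Finsupp.lapply (some s) : (Option B →₀ ℂ) →ₗ[ℂ] ℂ) + (1 : ℂ) • Lc M s := rfl
    rw [e, hI]
    simp
  rw [h2]
  rfl

/-! ### The sum of the absolute values -/

section norm

variable {I : Type*}

/-- the sum of the absolute values of the coordinates -/
noncomputable def nn (x : I →₀ ℂ) : ℝ := ∑ i ∈ x.support, ‖x i‖

theorem nn_eq (x : I →₀ ℂ) (S : Finset I) (h : x.support ⊆ S) : nn x = ∑ i ∈ S, ‖x i‖ := by
  refine Finset.sum_subset h fun i _ hi => ?_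
  rw [Finsupp.notMem_support_iff.1 hi, norm_zero]

theorem nn_nonneg (x : I →₀ ℂ) : 0 ≤ nn x := Finset.sum_nonneg fun _ _ => norm_nonneg _

theorem nn_smul (c : ℂ) (hc : ‖c‖ = 1) (x : I →₀ ℂ) : nn (c • x) = nn x := by
  rw [nn_eq (c • x) x.support Finsupp.support_smul, nn]
  refine Finset.sum_congr rfl fun i _ => ?_
  rw [Finsupp.smul_apply, smul_eq_mul, norm_mul, hc, one_mul]

theorem nn_erase (x : I →₀ ℂ) (i : I) : nn (x.erase i) = nn x - ‖x i‖ := by
  classical
  have h1 : nn x = ∑ j ∈ insert i x.support, ‖x j‖ := nn_eq x _ (Finset.subset_insert _ _)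
  have h2 : nn (x.erase i) = ∑ j ∈ insert i x.support, ‖x.erase i j‖ := by
    refine nn_eq _ _ ?_
    rw [Finsupp.support_erase]
    exact (Finset.erase_subset _ _).trans (Finset.subset_insert _ _)
  rw [h1, h2, eq_sub_iff_add_eq, ← Finset.add_sum_erase _ _ (Finset.mem_insert_self i _),
    ← Finset.add_sum_erase _ (fun j => ‖x j‖) (Finset.mem_insert_self i _), Finsupp.erase_same,
    norm_zero, zero_add, add_comm]
  congr 1
  refine Finset.sum_congr rfl fun j hj => ?_
  rw [Finsupp.erase_ne (Finset.ne_of_mem_erase hj)]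

theorem nn_two (x : I →₀ ℂ) {i j : I} (h : i ≠ j) : ‖x i‖ + ‖x j‖ ≤ nn x := by
  have h1 := nn_erase x i
  have h2 := nn_erase (x.erase i) j
  have h3 := nn_nonneg ((x.erase i).erase j)
  rw [Finsupp.erase_ne h.symm] at h2
  linarith

end norm

theorem Lc_le (s : B) (x : Option B →₀ ℂ) : ‖Lc M s x‖ ≤ 2 * nn x := by
  rw [Lc, Finsupp.linearCombination_apply, Finsupp.sum, nn, Finset.mul_sum]
  refine norm_sum_le_of_le _ fun i _ => ?_
  rw [smul_eq_mul, norm_mul, Complex.norm_real, Real.norm_of_nonneg (coef_nonneg M s i), mul_comm]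
  exact mul_le_mul_of_nonneg_right (coef_le_two M s i) (norm_nonneg _)

/-- the vectors dominated by the coordinate `s` -/
def XX (s : B) : Set (Option B →₀ ℂ) :=
  {x | 0 < ‖x (some s)‖ ∧ nn x ≤ 11 / 9 * ‖x (some s)‖}

theorem XX_nonempty (s : B) : (XX s).Nonempty := by
  classical
  refine ⟨ee s, ?_, ?_⟩
  · simp [ee]
  · rw [nn_eq (ee s) {some s} Finsupp.support_single_subset]
    simp [ee]
    norm_num

theorem XX_disjoint {s t : B} (hst : s ≠ t) : Disjoint (XX s) (XX t) := by
  rw [Set.disjoint_left]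
  rintro x ⟨h1, h2⟩ ⟨h3, h4⟩
  have h5 := nn_two x (i := some s) (j := some t) (by simpa using hst)
  linarith

variable {M}

theorem Lc_lower {s t : B} (hst : s ≠ t) (h2 : M s t ≠ 2) (x : Option B →₀ ℂ) :
    ‖x (some t)‖ - 2 * (nn x - ‖x (some t)‖ - ‖x (some s)‖) ≤ ‖Lc M s x‖ := by
  classical
  have hts : (some s : Option B) ≠ some t := by simpa using hst
  have e1 : Lc M s x = x (some t) * (coef M s (some t) : ℂ) +
      Lc M s ((x.erase (some t)).erase (some s)) := by
    conv_lhs => rw [← Finsupp.single_add_erase (some t) x]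
    rw [map_add, Lc_single]
    conv_lhs => rw [← Finsupp.single_add_erase (some s) (x.erase (some t))]
    rw [map_add, Lc_single, coef_self]
    simp
  have e2 : nn ((x.erase (some t)).erase (some s)) = nn x - ‖x (some t)‖ - ‖x (some s)‖ := by
    rw [nn_erase, nn_erase, Finsupp.erase_ne hts]
  have e3 := Lc_le M s ((x.erase (some t)).erase (some s))
  rw [e2] at e3
  have e4 : ‖x (some t)‖ ≤ ‖x (some t) * (coef M s (some t) : ℂ)‖ := by
    rw [norm_mul, Complex.norm_real, Real.norm_of_nonneg (coef_nonneg M s _)]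
    have := one_le_coef M hst.symm h2
    nlinarith [norm_nonneg (x (some t))]
  have e5 := norm_sub_le_norm_add (x (some t) * (coef M s (some t) : ℂ))
    (Lc M s ((x.erase (some t)).erase (some s)))
  rw [e1]
  linarith

theorem ping {s t : B} (hst : s ≠ t) (h2 : M s t ≠ 2) (n : ℤ) (hn : 10 ≤ |n|)
    (x : Option B →₀ ℂ) (hx : x ∈ XX t) :
    ((ur (DI M) (hunit M s ^ n) : (Module.End ℂ (Option B →₀ ℂ))ˣ) :
      Module.End ℂ (Option B →₀ ℂ)) x ∈ XX s := by
  classical
  have hL := Lc_lower hst h2 x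
  obtain ⟨h1, h3⟩ := hx
  rw [DI_zpow]
  set y : Option B →₀ ℂ := (-Complex.I) ^ n • x +
    ((n : ℂ) * (-Complex.I) ^ (n - 1) * Lc M s x) • ee s with hy
  have hnorm : ∀ m : ℤ, ‖(-Complex.I) ^ m‖ = 1 := by
    intro m
    rw [norm_zpow, norm_neg, Complex.norm_I, one_zpow]
  have hye : y.erase (some s) = (-Complex.I) ^ n • x.erase (some s) := by
    ext i
    by_cases hi : i = some s
    · subst hi
      simp
    · rw [Finsupp.erase_ne hi, Finsupp.smul_apply, Finsupp.erase_ne hi, hy]
      simp [ee, Ne.symm hi]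
  have hys : y (some s) = (-Complex.I) ^ n * x (some s) +
      (n : ℂ) * (-Complex.I) ^ (n - 1) * Lc M s x := by
    rw [hy]
    simp [ee]
  have hn' : 10 ≤ |(n : ℝ)| := by
    have : ((10 : ℤ) : ℝ) ≤ ((|n| : ℤ) : ℝ) := by exact_mod_cast hn
    push_cast at this
    exact this
  have e0 : nn y - ‖y (some s)‖ = nn x - ‖x (some s)‖ := by
    rw [← nn_erase, ← nn_erase, hye, nn_smul _ (hnorm n)]
  have e1 : ‖(n : ℂ) * (-Complex.I) ^ (n - 1) * Lc M s x‖ = |(n : ℝ)| * ‖Lc M s x‖ := by
    rw [norm_mul, norm_mul, hnorm, mul_one, Complex.norm_intCast]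
  have e2 : ‖(-Complex.I) ^ n * x (some s)‖ = ‖x (some s)‖ := by
    rw [norm_mul, hnorm, one_mul]
  have e3 := norm_sub_le_norm_add ((n : ℂ) * (-Complex.I) ^ (n - 1) * Lc M s x)
    ((-Complex.I) ^ n * x (some s))
  rw [add_comm ((n : ℂ) * (-Complex.I) ^ (n - 1) * Lc M s x), ← hys, e1, e2] at e3
  have e4 : 10 * ‖Lc M s x‖ ≤ |(n : ℝ)| * ‖Lc M s x‖ :=
    mul_le_mul_of_nonneg_right hn' (norm_nonneg _)
  have e5 := norm_nonneg (x (some s))
  refine ⟨?_, ?_⟩
  · linarith
  · linarith

variable (M)

/-- **Large powers.** -/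
theorem large (T : Set B) (hT : ∀ s ∈ T, ∀ t ∈ T, s ≠ t → M s t ≠ 2)
    (k : B → ℤ) (hk : ∀ s ∈ T, 10 ≤ |k s|) :
    Function.Injective (FreeGroup.lift fun s : T => hunit M (s : B) ^ k s) := by
  classical
  let a : T → (Module.End ℂ (Option B →₀ ℂ))ˣ := fun s => ur (DI M) (hunit M (s : B) ^ k s)
  have key : Function.Injective (FreeGroup.lift a) := by
    rcases subsingleton_or_nontrivial T with hsub | hnt
    · rw [injective_iff_map_eq_one]
      intro g hg
      rcases isEmpty_or_nonempty T with hemp | ⟨⟨s⟩⟩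
      · exact Subsingleton.elim _ _
      · have h1 : g ∈ Subgroup.zpowers (FreeGroup.of s) := by
          have h2 : Set.range (FreeGroup.of : T → FreeGroup T) = {FreeGroup.of s} := by
            ext z
            constructor
            · rintro ⟨r, rfl⟩
              rw [Subsingleton.elim r s]
              rfl
            · rintro rfl
              exact ⟨s, rfl⟩
          rw [Subgroup.zpowers_eq_closure, ← h2, FreeGroup.closure_range_of]
          exact Subgroup.mem_top g
        obtain ⟨n, rfl⟩ := h1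
        by_contra hne
        have hn : n ≠ 0 := by
          rintro rfl
          exact hne (zpow_zero _)
        rw [map_zpow, FreeGroup.lift_apply_of] at hg
        have h2 : ((ur (DI M) (hunit M (s : B) ^ (k s * n)) :
            (Module.End ℂ (Option B →₀ ℂ))ˣ) : Module.End ℂ (Option B →₀ ℂ)) = 1 := by
          have h3 : a s ^ n = ur (DI M) (hunit M (s : B) ^ (k s * n)) := by
            rw [zpow_mul, map_zpow]
          rw [← h3, hg]
          rfl
        have h3 := DI_zpow M (s : B) (k s * n) (Finsupp.single none 1)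
        rw [h2, Lc_single, coef_none] at h3
        have h4 := DFunLike.congr_fun h3 (some (s : B))
        have h5 : k s * n ≠ 0 := by
          refine mul_ne_zero ?_ hn
          intro h0
          have := hk s s.2
          rw [h0] at this
          norm_num at this
        have h6 : ((k s * n : ℤ) : ℂ) ≠ 0 := by exact_mod_cast h5
        have h7 : (-Complex.I) ^ (k s * n - 1) ≠ 0 :=
          zpow_ne_zero _ (neg_ne_zero.2 Complex.I_ne_zero)
        have h8 : ((k s * n : ℤ) : ℂ) * (-Complex.I) ^ (k s * n - 1) = 0 := by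
          simpa [ee] using h4.symm
        exact mul_ne_zero h6 h7 h8
    have h0 : FreeGroup.lift a =
        (Monoid.CoprodI.lift fun i => FreeGroup.lift fun _ : Unit => a i).comp
          (@freeGroupEquivCoprodI T).toMonoidHom := by
      ext i
      simp
    rw [h0, MonoidHom.coe_comp]
    refine Function.Injective.comp ?_ (MulEquiv.injective freeGroupEquivCoprodI)
    refine lift_injective_of_ping_pong (fun i : T => FreeGroup.lift fun _ : Unit => a i) ?_
      (fun s : T => XX (s : B)) (fun s => XX_nonempty (s : B)) ?_ ?_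
    · right
      obtain ⟨i⟩ := hnt.to_nonempty
      refine ⟨i, ?_⟩
      have h1 : Infinite (FreeGroup Unit) :=
        Infinite.of_injective _ FreeGroup.freeGroupUnitEquivInt.symm.injective
      exact (Cardinal.natCast_le_aleph0 (n := 3)).trans (Cardinal.aleph0_le_mk _)
    · intro s t hst
      exact XX_disjoint (fun h => hst (Subtype.ext h))
    · intro s t hst
      show ∀ h : FreeGroup Unit, h ≠ 1 → FreeGroup.lift (fun _ : Unit => a s) h • XX (t : B) ⊆
        XX (s : B)
      refine FreeGroup.freeGroupUnitEquivInt.forall_congr_left.mpr ?_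
      intro n hne1
      change FreeGroup.lift (fun _ => a s) (FreeGroup.of () ^ n) • XX (t : B) ⊆ XX (s : B)
      simp only [map_zpow, FreeGroup.lift_apply_of]
      have hn0 : n ≠ 0 := by
        rintro rfl
        apply hne1
        simp [FreeGroup.freeGroupUnitEquivInt]
      rintro _ ⟨x, hx, rfl⟩
      have h2 : a s ^ n = ur (DI M) (hunit M (s : B) ^ (k s * n)) := by
        rw [zpow_mul, map_zpow]
      show ((a s ^ n : (Module.End ℂ (Option B →₀ ℂ))ˣ) : Module.End ℂ (Option B →₀ ℂ)) x ∈ _
      rw [h2]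
      have hst' : (s : B) ≠ t := fun h => hst (Subtype.ext h)
      refine ping hst' (hT s s.2 t t.2 hst') (k s * n) ?_ x hx
      rw [abs_mul]
      have h3 := hk s s.2
      have h4 : 1 ≤ |n| := Int.one_le_abs hn0
      have h5 : (0 : ℤ) ≤ |k s| := abs_nonneg _
      nlinarith
  have h1 : FreeGroup.lift a =
      (ur (DI M)).comp (FreeGroup.lift fun s : T => hunit M (s : B) ^ k s) := by
    ext s
    simp [a]
  rw [h1, MonoidHom.coe_comp] at key
  exact key.of_comp

end Pool.Agent.PWM
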