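import Pool.Agent.PWM.Rep

/-!
# Powers of the generators: the two kinds of exponents
-/

set_option autoImplicit false

open Pool.Agent.HeckeCox

namespace Pool.Agent.PWM

variable {B : Type*} (M : CoxeterMatrix B)

/-- The homomorphism from the trace monoid to the braid group with `x_s ↦ σ_s ^ k_s`. -/
noncomputable def powHom (k : B → ℤ) : TraceMonoid M →* BraidGroup M :=
  PresentedMonoid.lift (fun s => (PresentedGroup.of s : BraidGroup M) ^ k s) (by
    rintro a b ⟨s, t, h, rfl, rfl⟩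
    have hst : s ≠ t := by
      rintro rfl
      rw [M.diagonal] at h
      omega
    have hc : Commute (PresentedGroup.of s : BraidGroup M) (PresentedGroup.of t) := by
      have h1 : PresentedGroup.mk (braidRels M)
          (altProd (FreeGroup.of s) (FreeGroup.of t) (M s t) *
            (altProd (FreeGroup.of t) (FreeGroup.of s) (M s t))⁻¹) = 1 :=
        PresentedGroup.one_of_mem ⟨s, t, hst, by omega, rfl⟩
      rw [map_mul, map_inv, mul_inv_eq_one, map_altProd, map_altProd, h] at h1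
      simp only [altProd, mul_one] at h1
      exact h1
    simpa using (hc.zpow_zpow (k s) (k t)).eq)

theorem powHom_of (k : B → ℤ) (s : B) :
    powHom M k (tg M s) = (PresentedGroup.of s : BraidGroup M) ^ k s :=
  PresentedMonoid.lift_of _ _

theorem comp_of (k : B → ℤ) (s : B) :
    ((rho M).comp (powHom M k)) (tg M s) = hunit M s ^ k s := by
  rw [MonoidHom.comp_apply, powHom_of, map_zpow, rho_of]

/-- the case of even exponents of one sign -/
theorem inj_even (k : B → ℤ) (q : ℝ) (hq : q = 1 / 2 ∨ q = 2) (hk : ∀ s, Even (k s))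
    (ha : ∀ s, q ^ k s ≤ 1 / 4) : Function.Injective ((rho M).comp (powHom M k)) := by
  have hq0 : 0 < q := by rcases hq with rfl | rfl <;> norm_num
  have hδ : q + q⁻¹ = 5 / 2 := by rcases hq with rfl | rfl <;> norm_num
  have hqc : (q : ℂ) ≠ 0 := by exact_mod_cast hq0.ne'
  have hδc : (q : ℂ) + (q : ℂ)⁻¹ = 5 / 2 := by
    have := congrArg (fun r : ℝ => (r : ℂ)) hδ
    push_cast at this
    exact this
  let D : RD M :=
    { q := (q : ℂ)
      hq := hqc
      be := fun _ => -1
      hbe := by intro s t _; norm_num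
      hd := by
        intro m _ h
        rw [hδc] at h
        have h1 : (5 / 2 : ℝ) ^ 2 = 4 * Real.cos (Real.pi / m) ^ 2 := by
          apply Complex.ofReal_injective
          rw [← h]
          push_cast
          rfl
        have h2 := Real.cos_sq_le_one (Real.pi / m)
        norm_num at h1
        linarith }
  have hpos : ∀ s, 0 < q ^ k s := fun s => zpow_pos hq0 _
  have hb4 : ∀ s, 4 ≤ (q ^ k s)⁻¹ := by
    intro s
    rw [le_inv_comm₀ (by norm_num) (hpos s)]
    have := ha s
    norm_num at this ⊢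
    exact this
  let p : Par (B := B) :=
    { a := fun s => q ^ k s
      b := fun s => (q ^ k s)⁻¹
      l := fun s => 2 / 5 * ((q ^ k s)⁻¹ - q ^ k s)
      apos := hpos
      bpos := fun s => inv_pos.2 (hpos s)
      le := by
        intro s
        have h1 := hb4 s
        have h2 := ha s
        show q ^ k s ≤ 2 / 5 * ((q ^ k s)⁻¹ - q ^ k s)
        linarith }
  refine inj_of_data D p k (fun _ => 1) (fun _ => norm_one) ?_ _ (comp_of M k)
  intro s x
  have hz := Ts_zpow D s (fun n => ((-(q : ℂ)⁻¹) ^ n - (q : ℂ) ^ n) / (-((q : ℂ) + (q : ℂ)⁻¹)))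
    (by simp) (by
      intro n
      show ((-(q : ℂ)⁻¹) ^ (n + 1) - (q : ℂ) ^ (n + 1)) / (-((q : ℂ) + (q : ℂ)⁻¹)) =
        -(q : ℂ)⁻¹ * (((-(q : ℂ)⁻¹) ^ n - (q : ℂ) ^ n) / (-((q : ℂ) + (q : ℂ)⁻¹))) +
          (q : ℂ) ^ n
      rw [zpow_add_one₀ (neg_ne_zero.2 (inv_ne_zero hqc)), zpow_add_one₀ hqc, hδc]
      linear_combination ((q : ℂ) ^ n * (2 / 5)) * hδc) (k s) (emb x)
  rw [hz]
  have he : (-(q : ℂ)⁻¹) ^ k s = ((q : ℂ) ^ k s)⁻¹ := by
    rw [(hk s).neg_zpow, inv_zpow]
  ext i
  rw [one_smul, emb_apply]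
  show _ = ((gs p M s x i : ℝ) : ℂ)
  by_cases hi : i = some s
  · subst hi
    rw [gs_self]
    simp only [Finsupp.add_apply, Finsupp.smul_apply, smul_eq_mul, emb_apply, ph_emb, ee,
      Finsupp.single_eq_same]
    show (q : ℂ) ^ k s * _ + (((-(q : ℂ)⁻¹) ^ k s - (q : ℂ) ^ k s) /
      (-((q : ℂ) + (q : ℂ)⁻¹)) * (-((q : ℂ) + (q : ℂ)⁻¹) * _ + -1 * _)) * 1 =
        (((q ^ k s)⁻¹ * x (some s) + 2 / 5 * ((q ^ k s)⁻¹ - q ^ k s) * Lf M s x : ℝ) : ℂ)
    rw [he, hδc]
    push_cast
    ring
  · rw [gs_ne p s x i hi]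
    classical
    simp only [Finsupp.add_apply, Finsupp.smul_apply, smul_eq_mul, emb_apply, ee,
      Finsupp.single_apply, if_neg (Ne.symm hi)]
    show (q : ℂ) ^ k s * _ + _ * 0 = ((q ^ k s * x i : ℝ) : ℂ)
    push_cast
    ring

/-- the case of opposite signs at every edge with finite label -/
theorem inj_alt (k : B → ℤ) (hk : ∀ s, k s ≠ 0) (hs : ∀ s t, 3 ≤ M s t → k s * k t < 0) :
    Function.Injective ((rho M).comp (powHom M k)) := by
  have hI : (-Complex.I)⁻¹ = Complex.I := by
    rw [inv_neg, Complex.inv_I, neg_neg]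
  have hI0 : (-Complex.I) ≠ 0 := neg_ne_zero.2 Complex.I_ne_zero
  let D : RD M :=
    { q := -Complex.I
      hq := hI0
      be := fun s => -Complex.I * ((k s).sign : ℂ)
      hbe := by
        intro s t h
        have h1 := hs s t h
        have h2 : (k s).sign * (k t).sign = -1 := by
          rw [← Int.sign_mul]
          exact Int.sign_eq_neg_one_of_neg h1
        have h3 : (((k s).sign : ℤ) : ℂ) * (((k t).sign : ℤ) : ℂ) = -1 := by
          exact_mod_cast h2
        linear_combination (Complex.I ^ 2) * h3 - Complex.I_sq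
      hd := by
        intro m hm h
        rw [hI] at h
        have h1 : (0 : ℝ) = 4 * Real.cos (Real.pi / m) ^ 2 := by
          have h2 : ((0 : ℝ) : ℂ) = ((4 * Real.cos (Real.pi / m) ^ 2 : ℝ) : ℂ) := by
            rw [← h]
            simp
          exact_mod_cast h2
        have h2 := half_le_cos hm
        nlinarith }
  let p : Par (B := B) :=
    { a := fun _ => 1
      b := fun _ => 1
      l := fun s => |(k s : ℝ)|
      apos := fun _ => one_pos
      bpos := fun _ => one_pos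
      le := by
        intro s
        have h1 : (1 : ℤ) ≤ |k s| := Int.one_le_abs (hk s)
        have h2 : ((1 : ℤ) : ℝ) ≤ ((|k s| : ℤ) : ℝ) := by exact_mod_cast h1
        rw [Int.cast_abs, Int.cast_one] at h2
        exact h2 }
  have hsq : (-Complex.I) * (-Complex.I) = -1 := by
    rw [neg_mul_neg, Complex.I_mul_I]
  refine inj_of_data D p k (fun s => (-Complex.I) ^ k s) (fun s => ?_) ?_ _ (comp_of M k)
  · rw [norm_zpow, norm_neg, Complex.norm_I, one_zpow]
  intro s x
  have hz := Ts_zpow D s (fun n => (n : ℂ) * (-Complex.I) ^ (n - 1))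
    (by simp) (by
      intro n
      show ((n + 1 : ℤ) : ℂ) * (-Complex.I) ^ (n + 1 - 1) =
        -(-Complex.I)⁻¹ * ((n : ℂ) * (-Complex.I) ^ (n - 1)) + (-Complex.I) ^ n
      rw [hI, add_sub_cancel_right]
      have h1 : (-Complex.I) ^ n = (-Complex.I) ^ (n - 1) * (-Complex.I) := by
        rw [← zpow_add_one₀ hI0, sub_add_cancel]
      push_cast
      rw [h1]
      ring) (k s) (emb x)
  rw [hz]
  have h1 : (-Complex.I) ^ (k s - 1) = (-Complex.I) ^ k s * Complex.I := by
    rw [zpow_sub_one₀ hI0, hI]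
  have habs : ((|(k s : ℝ)| : ℝ) : ℂ) = (k s : ℂ) * ((k s).sign : ℂ) := by
    have h2 : |k s| = k s * (k s).sign := by rw [mul_comm, Int.sign_mul_self_eq_abs]
    have h3 : ((|k s| : ℤ) : ℂ) = (k s : ℂ) * ((k s).sign : ℂ) := by
      rw [h2]
      push_cast
      rfl
    rw [← h3, ← Int.cast_abs]
    norm_cast
  have hII : Complex.I * Complex.I = -1 := Complex.I_mul_I
  ext i
  rw [Finsupp.smul_apply, emb_apply]
  show _ = (-Complex.I) ^ k s * ((gs p M s x i : ℝ) : ℂ)
  by_cases hi : i = some s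
  · subst hi
    rw [gs_self]
    simp only [Finsupp.add_apply, Finsupp.smul_apply, smul_eq_mul, emb_apply, ph_emb, ee,
      Finsupp.single_eq_same]
    show (-Complex.I) ^ k s * _ + (((k s : ℂ) * (-Complex.I) ^ (k s - 1)) *
      (-(-Complex.I + (-Complex.I)⁻¹) * _ + -Complex.I * ((k s).sign : ℂ) * _)) * 1 =
        (-Complex.I) ^ k s * ((1 * x (some s) + |(k s : ℝ)| * Lf M s x : ℝ) : ℂ)
    rw [h1, hI]
    push_cast
    rw [habs]
    linear_combination (-(-Complex.I) ^ k s * (k s : ℂ) * ((k s).sign : ℂ) *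
      (Lf M s x : ℂ)) * hII
  · rw [gs_ne p s x i hi]
    classical
    simp only [Finsupp.add_apply, Finsupp.smul_apply, smul_eq_mul, emb_apply, ee,
      Finsupp.single_apply, if_neg (Ne.symm hi)]
    show (-Complex.I) ^ k s * _ + _ * 0 = (-Complex.I) ^ k s * ((1 * x i : ℝ) : ℂ)
    push_cast
    ring

/-- **Main theorem.** -/
theorem main (k : B → ℤ)
    (hk : (∀ s, Even (k s) ∧ 0 < k s) ∨ (∀ s, Even (k s) ∧ k s < 0) ∨
      ((∀ s, k s ≠ 0) ∧ ∀ s t, 3 ≤ M s t → k s * k t < 0)) :
    Function.Injective ((rho M).comp (powHom M k)) := by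
  rcases hk with hk | hk | ⟨h1, h2⟩
  · refine inj_even M k (1 / 2) (Or.inl rfl) (fun s => (hk s).1) fun s => ?_
    obtain ⟨j, hj⟩ := (hk s).1
    have h2 : 2 ≤ k s := by have := (hk s).2; omega
    calc ((1 / 2 : ℝ)) ^ k s ≤ (1 / 2 : ℝ) ^ (2 : ℤ) :=
          zpow_le_zpow_right_of_le_one₀ (by norm_num) (by norm_num) h2
      _ = 1 / 4 := by norm_num
  · refine inj_even M k 2 (Or.inr rfl) (fun s => (hk s).1) fun s => ?_
    obtain ⟨j, hj⟩ := (hk s).1
    have h2 : k s ≤ -2 := by have := (hk s).2; omega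
    calc ((2 : ℝ)) ^ k s ≤ (2 : ℝ) ^ (-2 : ℤ) :=
          zpow_le_zpow_right₀ (by norm_num) h2
      _ = 1 / 4 := by norm_num
  · exact inj_alt M k h1 h2

end Pool.Agent.PWM
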