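import Pool.Agent.PWM.Braid
import Pool.Agent.PWM.Desc

/-!
# Representations of the Hecke algebra of reflection type and the trace monoid
-/

set_option autoImplicit false

open Pool.Agent.HeckeCox

namespace Pool.Agent.PWM

variable {B : Type*} (M : CoxeterMatrix B)

/-! ### Linear forms -/

/-- the complex linear form with the coefficients of `L_s` -/
noncomputable def Lc (s : B) : (Option B →₀ ℂ) →ₗ[ℂ] ℂ :=
  Finsupp.linearCombination ℂ (fun i => (coef M s i : ℂ))

theorem Lc_single (s : B) (i : Option B) (r : ℂ) :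
    Lc M s (Finsupp.single i r) = r * coef M s i := by
  simp [Lc]

/-- the data of the representation -/
structure RD where
  /-- the image of `v⁻¹` -/
  q : ℂ
  hq : q ≠ 0
  /-- the factors of `L_s` -/
  be : B → ℂ
  hbe : ∀ s t, 3 ≤ M s t → be s * be t = 1
  hd : ∀ m : ℕ, 3 ≤ m → (q + q⁻¹) ^ 2 ≠ ((4 * Real.cos (Real.pi / m) ^ 2 : ℝ) : ℂ)

variable {M}

/-- the functional of the generator `s` -/
noncomputable def ph (D : RD M) (s : B) : (Option B →₀ ℂ) →ₗ[ℂ] ℂ :=
  (-(D.q + D.q⁻¹)) • Finsupp.lapply (some s) + D.be s • Lc M s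

/-- the basis vector -/
noncomputable def ee (s : B) : Option B →₀ ℂ := Finsupp.single (some s) 1

theorem ph_self (D : RD M) (s : B) : ph D s (ee s) = -(D.q + D.q⁻¹) := by
  simp [ph, ee, Lc_single, coef_self]

theorem ph_other (D : RD M) {s t : B} (h : t ≠ s) :
    ph D s (ee t) = D.be s * coef M s (some t) := by
  classical
  simp [ph, ee, Lc_single, h]

/-- the operator of the generator `s` -/
noncomputable def Ts (D : RD M) (s : B) : Module.End ℂ (Option B →₀ ℂ) :=
  Tq D.q (ee s) (ph D s)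

theorem Ts_braid (D : RD M) (s t : B) (hst : s ≠ t) (h0 : M s t ≠ 0) :
    altProd (Ts D s) (Ts D t) (M s t) = altProd (Ts D t) (Ts D s) (M s t) := by
  have h1 : M s t ≠ 1 := M.off_diagonal s t hst
  by_cases h2 : M s t = 2
  · have hc := Tq_comm D.q (ee s) (ee t) (ph D s) (ph D t)
      (by rw [ph_other D hst.symm, coef_two M h2]; simp)
      (by rw [ph_other D hst, coef_two M (by rw [M.symmetric t s]; exact h2)]; simp)
    rw [h2]
    simpa [altProd, Ts] using hc
  · have h3 : 3 ≤ M s t := by omega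
    refine Tq_braid D.q D.hq (ee s) (ee t) (ph D s) (ph D t) (ph_self D s) (ph_self D t) (M s t)
      h3 ?_ (D.hd _ h3)
    rw [ph_other D hst.symm, ph_other D hst, coef_three M h3,
      coef_three M (by rw [M.symmetric t s]; exact h3), M.symmetric t s]
    have hb := D.hbe s t h3
    push_cast
    linear_combination (4 * Complex.cos (Real.pi / M s t) ^ 2) * hb

/-! ### The representation -/

/-- evaluation of Laurent polynomials at `v = q⁻¹` -/
noncomputable def ev (q : ℂ) (hq : q ≠ 0) : LaurentPolynomial ℤ →+* ℂ :=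
  LaurentPolynomial.eval₂ (Int.castRingHom ℂ) (Units.mk0 q⁻¹ (inv_ne_zero hq))

theorem ev_T_one (q : ℂ) (hq : q ≠ 0) : ev q hq (LaurentPolynomial.T 1) = q⁻¹ := by
  rw [ev, LaurentPolynomial.eval₂_T]
  simp

theorem ev_T_neg_one (q : ℂ) (hq : q ≠ 0) : ev q hq (LaurentPolynomial.T (-1)) = q := by
  rw [ev, LaurentPolynomial.eval₂_T]
  simp

/-- the algebra structure over the Laurent polynomials -/
noncomputable abbrev algE (B : Type*) (q : ℂ) (hq : q ≠ 0) :
    Algebra (LaurentPolynomial ℤ) (Module.End ℂ (Option B →₀ ℂ)) :=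
  Algebra.compHom _ (ev q hq)

/-- **The representation.** -/
noncomputable def rep (D : RD M) : HeckeAlgebra M →+* Module.End ℂ (Option B →₀ ℂ) :=
  letI := algE B D.q D.hq
  ((RingQuot.liftAlgHom (LaurentPolynomial ℤ)
    ⟨FreeAlgebra.lift (LaurentPolynomial ℤ) (fun s => Ts D s), by
      intro x y h
      cases h with
      | quad s =>
        rw [map_mul, FreeAlgebra.lift_ι_apply, map_add, map_one, map_smul,
          FreeAlgebra.lift_ι_apply]
        have h1 : ((LaurentPolynomial.T (-1) : LaurentPolynomial ℤ) -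
            LaurentPolynomial.T 1) • Ts D s = (D.q - D.q⁻¹) • Ts D s := by
          show (ev D.q D.hq (LaurentPolynomial.T (-1) - LaurentPolynomial.T 1)) • Ts D s = _
          rw [map_sub, ev_T_one, ev_T_neg_one]
        rw [h1]
        exact Tq_quad D.q D.hq (ee s) (ph D s) (ph_self D s)
      | braid s r hsr hM =>
        rw [map_altProd, map_altProd, FreeAlgebra.lift_ι_apply, FreeAlgebra.lift_ι_apply]
        exact Ts_braid D s r hsr hM⟩ :
    HeckeAlgebra M →ₐ[LaurentPolynomial ℤ] Module.End ℂ (Option B →₀ ℂ)) :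
      HeckeAlgebra M →+* Module.End ℂ (Option B →₀ ℂ))

theorem rep_hgen (D : RD M) (s : B) : rep D (hgen M s) = Ts D s := by
  let _ := algE B D.q D.hq
  unfold rep hgen
  erw [RingQuot.liftAlgHom_mkAlgHom_apply, FreeAlgebra.lift_ι_apply]

/-- the action of the units of the Hecke algebra -/
noncomputable def ur (D : RD M) :
    (HeckeAlgebra M)ˣ →* (Module.End ℂ (Option B →₀ ℂ))ˣ :=
  Units.map (rep D : HeckeAlgebra M →* Module.End ℂ (Option B →₀ ℂ))

theorem ur_hunit (D : RD M) (s : B) :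
    ((ur D (hunit M s) : (Module.End ℂ (Option B →₀ ℂ))ˣ) : Module.End ℂ (Option B →₀ ℂ)) =
      Ts D s := rep_hgen D s

/-! ### Powers -/

theorem zpow_of_rec {K : Type*} [Ring K] (U : Kˣ) (A : ℤ → K) (h0 : A 0 = 1)
    (h : ∀ n, A (n + 1) = U * A n) (n : ℤ) : ((U ^ n : Kˣ) : K) = A n := by
  induction n using Int.induction_on with
  | zero => simp [h0]
  | succ n ih =>
    rw [h, ← ih, add_comm, zpow_one_add, Units.val_mul]
  | pred n ih =>
    have h1 := h (-(n : ℤ) - 1)
    rw [sub_add_cancel, ← ih] at h1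
    have h2 : ((U ^ (-(n : ℤ)) : Kˣ) : K) = U * ((U ^ (-(n : ℤ) - 1) : Kˣ) : K) := by
      rw [← Units.val_mul, ← zpow_one_add]
      congr 2
      ring
    rw [h2] at h1
    exact (Units.mul_right_inj U).1 h1

/-- Powers of the operators. -/
theorem Ts_zpow (D : RD M) (s : B) (r : ℤ → ℂ) (h0 : r 0 = 0)
    (hr : ∀ n, r (n + 1) = -D.q⁻¹ * r n + D.q ^ n) (n : ℤ) (x : Option B →₀ ℂ) :
    ((ur D (hunit M s ^ n) : (Module.End ℂ (Option B →₀ ℂ))ˣ) :
      Module.End ℂ (Option B →₀ ℂ)) x = D.q ^ n • x + (r n * ph D s x) • ee s := by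
  have key := zpow_of_rec (ur D (hunit M s))
    (fun n => D.q ^ n • (1 : Module.End ℂ (Option B →₀ ℂ)) + r n • (ph D s).smulRight (ee s))
    (by simp [h0]) (by
      intro n
      rw [ur_hunit, hr n, zpow_add_one₀ D.hq]
      ext1 i
      ext1
      ext j
      simp only [LinearMap.comp_apply, Ts, Module.End.mul_apply, Tq_apply, LinearMap.add_apply,
        LinearMap.smul_apply, Module.End.one_apply, LinearMap.smulRight_apply, map_add, map_smul,
        ph_self, smul_eq_mul, Finsupp.add_apply, Finsupp.smul_apply]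
      ring) n
  rw [map_zpow, key]
  simp [smul_smul]

/-! ### Real vectors -/

/-- real vectors as complex vectors -/
noncomputable def emb (x : Option B →₀ ℝ) : Option B →₀ ℂ :=
  x.mapRange (fun r : ℝ => (r : ℂ)) Complex.ofReal_zero

theorem emb_apply (x : Option B →₀ ℝ) (i : Option B) : emb x i = (x i : ℂ) := by
  simp [emb]

theorem Lc_emb (s : B) (x : Option B →₀ ℝ) : Lc M s (emb x) = (Lf M s x : ℂ) := by
  rw [Lc, Lf, Finsupp.linearCombination_apply, Finsupp.linearCombination_apply, emb,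
    Finsupp.sum_mapRange_index (by simp), Finsupp.sum, Finsupp.sum]
  push_cast
  simp

theorem ph_emb (D : RD M) (s : B) (x : Option B →₀ ℝ) :
    ph D s (emb x) = -(D.q + D.q⁻¹) * x (some s) + D.be s * Lf M s x := by
  simp [ph, Lc_emb, emb_apply]

/-- **Injectivity from positivity.** -/
theorem inj_of_data (D : RD M) (p : Par (B := B)) (k : B → ℤ) (ζ : B → ℂ)
    (hζ : ∀ s, ‖ζ s‖ = 1)
    (hk : ∀ s (x : Option B →₀ ℝ), ((ur D (hunit M s ^ k s) :
      (Module.End ℂ (Option B →₀ ℂ))ˣ) : Module.End ℂ (Option B →₀ ℂ)) (emb x) =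
        ζ s • emb (gs p M s x))
    (f : TraceMonoid M →* (HeckeAlgebra M)ˣ) (hf : ∀ s, f (tg M s) = hunit M s ^ k s) :
    Function.Injective f := by
  classical
  intro z z' h
  obtain ⟨w, rfl⟩ := exists_word M z
  obtain ⟨w', rfl⟩ := exists_word M z'
  set S : Finset (Option B) := insert none ((w ++ w').toFinset.image some) with hS
  set x : Option B →₀ ℝ := Finsupp.indicator S (fun _ _ => 1) with hx
  have hx1 : ∀ i ∈ S, x i = 1 := fun i hi => by rw [hx, Finsupp.indicator_of_mem hi]
  have hx0 : ∀ i, i ∉ S → x i = 0 := fun i hi => by rw [hx, Finsupp.indicator_of_notMem hi]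
  have hxn : ∀ i, 0 ≤ x i ∧ x i ≤ 1 := by
    intro i
    by_cases hi : i ∈ S
    · rw [hx1 i hi]; norm_num
    · rw [hx0 i hi]; norm_num
  have hnone : x none = 1 := hx1 none (Finset.mem_insert_self _ _)
  have hC : x ∈ Cone {s : B | s ∈ w ++ w'} := by
    refine ⟨fun i => (hxn i).1, by rw [hnone]; norm_num, fun t ht => ?_⟩
    rw [hx1 (some t) (Finset.mem_insert_of_mem (Finset.mem_image_of_mem _
      (List.mem_toFinset.2 ht)))]
    norm_num
  have hD : ∀ t, t ∉ Des p M x := by
    intro t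
    show ¬ (p.l t * Lf M t x < p.a t * x (some t))
    rw [not_lt]
    have h1 := le_Lf M t x hC.1 none
    rw [coef_none, hnone, one_mul] at h1
    have h2 : p.a t * x (some t) ≤ p.a t * 1 :=
      mul_le_mul_of_nonneg_left (hxn (some t)).2 (p.apos t).le
    have h3 : p.l t * 1 ≤ p.l t * Lf M t x :=
      mul_le_mul_of_nonneg_left h1 ((p.apos t).le.trans (p.le t))
    have h4 := p.le t
    linarith
  have hact : ∀ v : List B, ∃ c : ℂ, ‖c‖ = 1 ∧
      ((ur D (f (tw M v)) : (Module.End ℂ (Option B →₀ ℂ))ˣ) :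
        Module.End ℂ (Option B →₀ ℂ)) (emb x) = c • emb (gw p M v x) := by
    intro v
    induction v with
    | nil => exact ⟨1, by simp, by simp [tw, gw]⟩
    | cons s v ih =>
      obtain ⟨c, hc, hv⟩ := ih
      refine ⟨c * ζ s, by rw [norm_mul, hc, hζ, mul_one], ?_⟩
      rw [tw_cons, map_mul, map_mul, Units.val_mul, Module.End.mul_apply, hv, map_smul, hf, hk,
        smul_smul, gw_cons]
  refine detect p f hC hD (fun u i => ‖((ur D u : (Module.End ℂ (Option B →₀ ℂ))ˣ) :
        Module.End ℂ (Option B →₀ ℂ)) (emb x) i‖) ?_ w w' ?_ ?_ h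
  · intro v i
    obtain ⟨c, hc, hv⟩ := hact v
    show ‖((ur D (f (tw M v)) : (Module.End ℂ (Option B →₀ ℂ))ˣ) :
        Module.End ℂ (Option B →₀ ℂ)) (emb x) i‖ = gw p M v x i
    rw [hv, Finsupp.smul_apply, smul_eq_mul, norm_mul, hc, one_mul, emb_apply, Complex.norm_real,
      Real.norm_of_nonneg ((gw_mem p hC v).1 i)]
  · intro s hs
    exact List.mem_append_left _ hs
  · intro s hs
    exact List.mem_append_right _ hs

end Pool.Agent.PWM
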