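import Pool.Agent.PWM.Rep

/-!
# Squares of all generators and cubes of the generators which commute with no other one

`Z t k` is the action of `σ_t ^ k` on the reflection type representation at `v = 4`, up to a
scalar. A vector is *good* if it is positive, or if it has an anchor: a coordinate `s`, such that
`s` commutes with no other generator, which is at least `16` times the sum of all the negative
parts. The descents of a good vector are the `t` with `2 ≤ y_t` and `30 L_t(y) ≤ y_t`.
-/

set_option autoImplicit false

open Pool.Agent.HeckeCox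

open scoped Classical

namespace Pool.Agent.PWM

variable {B : Type*} (M : CoxeterMatrix B)

/-- the generator `s` commutes with no other generator -/
def Free1 (s : B) : Prop := ∀ t, t ≠ s → M s t ≠ 2

theorem coef_le_two (s : B) (i : Option B) : coef M s i ≤ 2 := by
  cases i with
  | none => rw [coef_none]; norm_num
  | some t =>
    rw [coef]
    split_ifs
    · norm_num
    · exact le_rfl
    · have := Real.cos_le_one (Real.pi / M s t)
      linarith

theorem Lf_eq_sum {S : Finset (Option B)} {y : Option B →₀ ℝ} (hy : y.support ⊆ S) (t : B) :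
    Lf M t y = ∑ i ∈ S, coef M t i * y i := by
  rw [Lf, Finsupp.linearCombination_apply, Finsupp.sum_of_support_subset _ hy _ (by simp)]
  exact Finset.sum_congr rfl fun i _ => by rw [smul_eq_mul, mul_comm]

/-- the basic lower bound -/
theorem Lf_ge {S : Finset (Option B)} {y : Option B →₀ ℝ} (hy : y.support ⊆ S) (t : B)
    (U : Finset (Option B)) (hUS : U ⊆ S) (hU : ∀ i ∈ U, 1 ≤ coef M t i) :
    ∑ i ∈ U, max (y i) 0 - 2 * ∑ i ∈ S with i ≠ some t, max (-y i) 0 ≤ Lf M t y := by
  rw [Lf_eq_sum M hy t]
  have h1 : ∑ i ∈ U, max (y i) 0 = ∑ i ∈ S, if i ∈ U then max (y i) 0 else 0 := by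
    rw [← Finset.sum_filter, Finset.filter_mem_eq_inter, Finset.inter_eq_right.2 hUS]
  rw [h1, Finset.sum_filter, Finset.mul_sum, ← Finset.sum_sub_distrib]
  apply Finset.sum_le_sum
  intro i _
  have c0 := coef_nonneg M t i
  have c2 := coef_le_two M t i
  have hs : i = some t → coef M t i = 0 := by rintro rfl; exact coef_self M t
  have hp := le_max_left (y i) 0
  have hp0 := le_max_right (y i) 0
  have hn := le_max_left (-y i) 0
  have hn0 := le_max_right (-y i) 0
  have he : y i = max (y i) 0 - max (-y i) 0 := by
    rcases le_total 0 (y i) with h | h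
    · rw [max_eq_left h, max_eq_right (by linarith), sub_zero]
    · rw [max_eq_right h, max_eq_left (by linarith)]; ring
  by_cases hit : i = some t
  · have hiU : i ∉ U := fun h => by
      have := hU i h
      rw [hs hit] at this
      linarith
    rw [if_neg hiU, if_neg (by simp [hit]), hs hit]
    simp
  · rw [if_pos hit]
    by_cases hiU : i ∈ U
    · rw [if_pos hiU]
      have h1 := hU i hiU
      nlinarith
    · rw [if_neg hiU]
      nlinarith

/-! ### The operators -/

/-- `Z t k y`: the coordinate `t` is replaced by `16 ^ k y_t + 4 (16 ^ k - (-1) ^ k) / 17 L_t(y)`,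
the other ones are multiplied by `(-1) ^ k` -/
noncomputable def Z (t : B) (k : ℕ) (y : Option B →₀ ℝ) : Option B →₀ ℝ :=
  (-1 : ℝ) ^ k • y + Finsupp.single (some t) ((16 ^ k - (-1) ^ k) * y (some t) +
    4 / 17 * (16 ^ k - (-1) ^ k) * Lf M t y)

theorem Z_self (t : B) (k : ℕ) (y : Option B →₀ ℝ) :
    Z M t k y (some t) = 16 ^ k * y (some t) + 4 / 17 * (16 ^ k - (-1) ^ k) * Lf M t y := by
  simp only [Z, Finsupp.add_apply, Finsupp.smul_apply, Finsupp.single_eq_same, smul_eq_mul]
  ring

theorem Z_ne (t : B) (k : ℕ) (y : Option B →₀ ℝ) (i : Option B) (h : i ≠ some t) :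
    Z M t k y i = (-1) ^ k * y i := by
  simp [Z, Ne.symm h]

theorem Lf_Z_self (t : B) (k : ℕ) (y : Option B →₀ ℝ) :
    Lf M t (Z M t k y) = (-1) ^ k * Lf M t y := by
  rw [Z, map_add, map_smul, Lf_single, coef_self, mul_zero, add_zero, smul_eq_mul]

theorem Lf_Z_two {s t : B} (h : M t s = 2) (k : ℕ) (y : Option B →₀ ℝ) :
    Lf M t (Z M s k y) = (-1) ^ k * Lf M t y := by
  rw [Z, map_add, map_smul, Lf_single, coef_two M h, mul_zero, add_zero, smul_eq_mul]

theorem Z_support {S : Finset (Option B)} {y : Option B →₀ ℝ} (hy : y.support ⊆ S) {t : B}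
    (ht : some t ∈ S) (k : ℕ) : (Z M t k y).support ⊆ S := by
  intro i hi
  by_cases h : i = some t
  · rw [h]; exact ht
  · apply hy
    rw [Finsupp.mem_support_iff] at hi ⊢
    rw [Z_ne M t k y i h] at hi
    exact right_ne_zero_of_mul hi

/-- the sum of the negative parts -/
noncomputable def Ng (S : Finset (Option B)) (y : Option B →₀ ℝ) : ℝ := ∑ i ∈ S, max (-y i) 0

/-- good vectors -/
def Good (S : Finset (Option B)) (y : Option B →₀ ℝ) : Prop :=
  y.support ⊆ S ∧ (((∀ i, 0 ≤ y i) ∧ ∀ i ∈ S, 1 ≤ y i) ∨
    ∃ s, Free1 M s ∧ 1 ≤ y (some s) ∧ 16 * Ng S y ≤ y (some s))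

/-- the descents -/
def Dd (y : Option B →₀ ℝ) (t : B) : Prop := 2 ≤ y (some t) ∧ 30 * Lf M t y ≤ y (some t)

variable {M}

theorem mem_of_Dd {S : Finset (Option B)} {y : Option B →₀ ℝ} (hy : y.support ⊆ S) {t : B}
    (ht : Dd M y t) : some t ∈ S := by
  apply hy
  rw [Finsupp.mem_support_iff]
  have := ht.1
  intro h
  linarith

theorem one_le_coef_of_free {s t : B} (hs : Free1 M s) (hts : t ≠ s) :
    1 ≤ coef M t (some s) := by
  apply one_le_coef M (Ne.symm hts)
  rw [M.symmetric]
  exact hs t hts

theorem one_le_coef_free {t : B} (ht : Free1 M t) (i : Option B) (hi : i ≠ some t) :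
    1 ≤ coef M t i := by
  cases i with
  | none => rw [coef_none]
  | some u =>
    have hu : u ≠ t := fun h => hi (by rw [h])
    exact one_le_coef M hu (ht u hu)

/-- one coordinate of the sum -/
theorem Ng_split {S : Finset (Option B)} {y : Option B →₀ ℝ} {t : B} (ht : some t ∈ S) :
    Ng S y = max (-y (some t)) 0 + ∑ i ∈ S with i ≠ some t, max (-y i) 0 := by
  rw [Ng, ← Finset.add_sum_erase S _ ht]
  congr 1
  apply Finset.sum_congr _ fun _ _ => rfl
  ext i
  simp [and_comm]

theorem single_le {S : Finset (Option B)} (f : Option B → ℝ) (hf : ∀ i, 0 ≤ f i) {i : Option B}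
    (hi : i ∈ S) : f i ≤ ∑ j ∈ S, f j := Finset.single_le_sum (fun j _ => hf j) hi

/-- the numbers which occur -/
theorem numbers {k : ℕ} (hk : 2 ≤ k) :
    256 ≤ (16 : ℝ) ^ k ∧ 15 / 64 * (16 : ℝ) ^ k ≤ 4 / 17 * ((16 : ℝ) ^ k - (-1) ^ k) ∧
      4 / 17 * ((16 : ℝ) ^ k - (-1) ^ k) ≤ 1 / 4 * (16 : ℝ) ^ k := by
  have h1 : (256 : ℝ) ≤ 16 ^ k := by
    calc (256 : ℝ) = 16 ^ 2 := by norm_num
      _ ≤ 16 ^ k := pow_le_pow_right₀ (by norm_num) hk
  have h2 : (-1 : ℝ) ^ k = 1 ∨ (-1 : ℝ) ^ k = -1 := neg_one_pow_eq_or ℝ k
  refine ⟨h1, ?_, ?_⟩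
  · rcases h2 with h | h <;> rw [h] <;> linarith
  · rcases h2 with h | h <;> rw [h] <;> linarith

/-- **One letter.** -/
theorem step {S : Finset (Option B)} (hSn : none ∈ S) {y : Option B →₀ ℝ} (hy : Good M S y)
    {t : B} (ht : some t ∈ S) {k : ℕ} (hk : 2 ≤ k) (hkt : Even k ∨ Free1 M t) :
    Good M S (Z M t k y) ∧ Dd M (Z M t k y) t := by
  obtain ⟨hA, ha1, ha2⟩ := numbers hk
  set A : ℝ := (16 : ℝ) ^ k with hAdef
  set a : ℝ := 4 / 17 * (A - (-1) ^ k) with hadef
  set L : ℝ := Lf M t y with hL
  set Y : ℝ := A * y (some t) + a * L with hY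
  obtain ⟨hsup, hcase⟩ := hy
  have hZt : Z M t k y (some t) = Y := by rw [Z_self]
  have hZL : Lf M t (Z M t k y) = (-1) ^ k * L := Lf_Z_self M t k y
  have hZs := Z_support M hsup ht k
  set N' : ℝ := ∑ i ∈ S with i ≠ some t, max (-y i) 0 with hN'
  set P' : ℝ := ∑ i ∈ S with i ≠ some t, max (y i) 0 with hP'
  have hN'0 : 0 ≤ N' := Finset.sum_nonneg fun i _ => le_max_right _ _
  have hP'0 : 0 ≤ P' := Finset.sum_nonneg fun i _ => le_max_right _ _
  -- the lower bound for a free `t`
  have hfree : Free1 M t → P' - 2 * N' ≤ L := fun hf =>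
    Lf_ge M hsup t (S.filter (· ≠ some t)) (Finset.filter_subset _ _)
      (fun i hi => one_le_coef_free hf i (Finset.mem_filter.1 hi).2)
  -- it is enough to prove four inequalities
  have hNgE : Even k → Ng S (Z M t k y) = max (-Y) 0 + N' := by
    intro he
    rw [Ng_split ht, hZt]
    congr 1
    apply Finset.sum_congr rfl
    intro i hi
    rw [Z_ne M t k y i (Finset.mem_filter.1 hi).2, he.neg_one_pow, one_mul]
  have hNgO : Odd k → Ng S (Z M t k y) = max (-Y) 0 + P' := by
    intro he
    rw [Ng_split ht, hZt]
    congr 1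
    apply Finset.sum_congr rfl
    intro i hi
    rw [Z_ne M t k y i (Finset.mem_filter.1 hi).2, he.neg_one_pow, neg_one_mul, neg_neg]
  have fin : 2 ≤ Y → 30 * L ≤ Y → (Odd k → -(30 * L) ≤ Y) → (Odd k → 16 * P' ≤ Y) →
      (Even k → ((∀ i, 0 ≤ Z M t k y i) ∧ ∀ i ∈ S, 1 ≤ Z M t k y i) ∨
        ∃ s, Free1 M s ∧ 1 ≤ Z M t k y (some s) ∧ 16 * N' ≤ Z M t k y (some s)) →
      Good M S (Z M t k y) ∧ Dd M (Z M t k y) t := by
    intro h1 h2 h3 h4 h5
    have hY0 : max (-Y) 0 = 0 := max_eq_right (by linarith)
    rcases Nat.even_or_odd k with he | ho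
    · refine ⟨⟨hZs, ?_⟩, by rw [hZt]; exact h1, ?_⟩
      · rcases h5 he with h6 | ⟨s, hs1, hs2, hs3⟩
        · exact Or.inl h6
        · refine Or.inr ⟨s, hs1, hs2, ?_⟩
          rw [hNgE he, hY0, zero_add]
          exact hs3
      · rw [hZt, hZL, he.neg_one_pow, one_mul]
        exact h2
    · have hf : Free1 M t := hkt.resolve_left (Nat.not_even_iff_odd.2 ho)
      refine ⟨⟨hZs, Or.inr ⟨t, hf, by rw [hZt]; linarith, ?_⟩⟩, by rw [hZt]; exact h1, ?_⟩
      · rw [hNgO ho, hY0, zero_add, hZt]
        exact h4 ho
      · rw [hZt, hZL, ho.neg_one_pow]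
        linarith [h3 ho]
  rcases hcase with ⟨hp, hp1⟩ | ⟨s, hs, hs1, hs2⟩
  · -- positive
    have hL0 : 0 ≤ L := Lf_nonneg M t y hp
    have hyt : 1 ≤ y (some t) := hp1 _ ht
    have hN0 : N' = 0 := Finset.sum_eq_zero fun i _ => max_eq_right (by linarith [hp i])
    have hAy : A ≤ A * y (some t) := le_mul_of_one_le_right (by linarith) hyt
    have haL : 60 * L ≤ a * L := mul_le_mul_of_nonneg_right (by linarith) hL0
    refine fin (by linarith) (by linarith) (fun _ => by linarith) (fun ho => ?_) (fun he => ?_)
    · have hf : Free1 M t := hkt.resolve_left (Nat.not_even_iff_odd.2 ho)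
      have h1 := hfree hf
      rw [hN0] at h1
      linarith
    · left
      refine ⟨fun i => ?_, fun i hi => ?_⟩
      · by_cases h : i = some t
        · rw [h, hZt]; linarith
        · rw [Z_ne M t k y i h, he.neg_one_pow, one_mul]; exact hp i
      · by_cases h : i = some t
        · rw [h, hZt]; linarith
        · rw [Z_ne M t k y i h, he.neg_one_pow, one_mul]; exact hp1 i hi
  · have hsS : some s ∈ S := by
      apply hsup
      rw [Finsupp.mem_support_iff]
      intro h
      linarith
    rw [Ng_split ht, ← hN'] at hs2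
    set Nt : ℝ := max (-y (some t)) 0 with hNt
    have hNt0 : 0 ≤ Nt := le_max_right _ _
    have hyNt : -Nt ≤ y (some t) := by
      have := le_max_left (-y (some t)) 0
      linarith
    by_cases hst : s = t
    · -- the anchor is `t`
      subst hst
      have hNt' : Nt = 0 := max_eq_right (by linarith)
      rw [hNt', zero_add] at hs2
      have h1 := hfree hs
      have h2 : -(1 / 8 * y (some s)) ≤ L := by linarith
      have h3 : -(1 / 8 * y (some s)) * a ≤ a * L := by
        rw [mul_comm]
        exact mul_le_mul_of_nonneg_left h2 (by linarith)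
      have h4 : a * y (some s) ≤ 1 / 4 * A * y (some s) :=
        mul_le_mul_of_nonneg_right ha2 (by linarith)
      have h5 : A ≤ A * y (some s) := le_mul_of_one_le_right (by linarith) hs1
      have h5' : 256 * y (some s) ≤ A * y (some s) :=
        mul_le_mul_of_nonneg_right hA (by linarith)
      have h6 : 31 / 32 * (A * y (some s)) ≤ Y := by
        rw [hY]; nlinarith
      refine fin (by linarith) ?_ (fun _ => by linarith) (fun _ => ?_) (fun he => ?_)
      · rcases le_total 0 L with h | h
        · have : 60 * L ≤ a * L := mul_le_mul_of_nonneg_right (by linarith) h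
          rw [hY]; nlinarith
        · linarith
      · have h7 : a * (P' - 2 * N') ≤ a * L := mul_le_mul_of_nonneg_left h1 (by linarith)
        have h8 : a * (2 * N') ≤ a * (1 / 8 * y (some s)) :=
          mul_le_mul_of_nonneg_left (by linarith) (by linarith)
        have h9 : 60 * P' ≤ a * P' := mul_le_mul_of_nonneg_right (by linarith) hP'0
        rw [hY]; nlinarith
      · right
        refine ⟨s, hs, by rw [hZt]; linarith, ?_⟩
        rw [hZt]; linarith
    · -- the anchor is not `t`
      have hts : t ≠ s := fun h => hst h.symm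
      have hne : (some s : Option B) ≠ some t := fun h => hst (Option.some.inj h)
      have h1 : y (some s) - 2 * N' ≤ L := by
        have := Lf_ge M hsup t {some s} (by simpa using hsS) (by
          intro i hi
          rw [Finset.mem_singleton] at hi
          rw [hi]
          exact one_le_coef_of_free hs hts)
        rw [Finset.sum_singleton, max_eq_left (by linarith)] at this
        exact this
      have hysP : y (some s) ≤ P' := by
        have := Finset.single_le_sum (s := S.filter (· ≠ some t)) (f := fun i => max (y i) 0)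
          (fun i _ => le_max_right (y i) 0) (Finset.mem_filter.2 ⟨hsS, hne⟩)
        exact (le_max_left _ _).trans this
      have h2 : 16 * Nt ≤ L := by linarith
      have h3 : 7 / 8 ≤ L := by linarith
      have h4 : 15 / 64 * A * L ≤ a * L := mul_le_mul_of_nonneg_right ha1 (by linarith)
      have h5 : A * -Nt ≤ A * y (some t) := mul_le_mul_of_nonneg_left hyNt (by linarith)
      have h6 : A * (16 * Nt) ≤ A * L := mul_le_mul_of_nonneg_left h2 (by linarith)
      have h7 : 256 * L ≤ A * L := mul_le_mul_of_nonneg_right hA (by linarith)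
      have h8 : 11 / 64 * (A * L) ≤ Y := by rw [hY]; nlinarith
      refine fin (by linarith) (by linarith) (fun _ => by linarith) (fun ho => ?_) (fun he => ?_)
      · have hf : Free1 M t := hkt.resolve_left (Nat.not_even_iff_odd.2 ho)
        have h9 := hfree hf
        linarith
      · right
        refine ⟨s, hs, ?_, ?_⟩
        · rw [Z_ne M t k y _ hne, he.neg_one_pow, one_mul]; exact hs1
        · rw [Z_ne M t k y _ hne, he.neg_one_pow, one_mul]; linarith

/-- **Two descents commute.** -/
theorem descents_commute {S : Finset (Option B)} {z : Option B →₀ ℝ} (hz : Good M S z) {s t : B}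
    (hts : t ≠ s) (h2 : M s t ≠ 2) (hs : Dd M z s) (ht : Dd M z t) : False := by
  obtain ⟨hsup, hcase⟩ := hz
  have hsS := mem_of_Dd hsup hs
  have htS := mem_of_Dd hsup ht
  obtain ⟨hs1, hs2⟩ := hs
  obtain ⟨ht1, ht2⟩ := ht
  have h2' : M t s ≠ 2 := by rwa [M.symmetric t s]
  have cst : 1 ≤ coef M s (some t) := one_le_coef M hts h2
  have cts : 1 ≤ coef M t (some s) := one_le_coef M (Ne.symm hts) h2'
  have hle : ∀ u : B, ∑ i ∈ S with i ≠ some u, max (-z i) 0 ≤ Ng S z := fun u =>
    Finset.sum_le_sum_of_subset_of_nonneg (Finset.filter_subset _ _)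
      fun i _ _ => le_max_right _ _
  have Ls : z (some t) - 2 * Ng S z ≤ Lf M s z := by
    have := Lf_ge M hsup s {some t} (by simpa using htS) (by
      intro i hi
      rw [Finset.mem_singleton] at hi
      rw [hi]; exact cst)
    rw [Finset.sum_singleton, max_eq_left (by linarith)] at this
    linarith [hle s]
  have Lt : z (some s) - 2 * Ng S z ≤ Lf M t z := by
    have := Lf_ge M hsup t {some s} (by simpa using hsS) (by
      intro i hi
      rw [Finset.mem_singleton] at hi
      rw [hi]; exact cts)
    rw [Finset.sum_singleton, max_eq_left (by linarith)] at this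
    linarith [hle t]
  rcases hcase with ⟨hp, -⟩ | ⟨r, hr, hr1, hr2⟩
  · have hN0 : Ng S z = 0 := Finset.sum_eq_zero fun i _ => max_eq_right (by linarith [hp i])
    rw [hN0] at Ls Lt
    linarith
  · by_cases hrs : r = s
    · subst hrs; linarith
    · by_cases hrt : r = t
      · subst hrt; linarith
      · have hrS : some r ∈ S := by
          apply hsup
          rw [Finsupp.mem_support_iff]
          intro h
          linarith
        have hr0 : max (z (some r)) 0 = z (some r) := max_eq_left (by linarith)
        have Ls' : z (some t) + z (some r) - 2 * Ng S z ≤ Lf M s z := by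
          have := Lf_ge M hsup s {some t, some r} (by
            intro i hi
            rcases Finset.mem_insert.1 hi with rfl | hi
            · exact htS
            · rw [Finset.mem_singleton.1 hi]; exact hrS) (by
            intro i hi
            rcases Finset.mem_insert.1 hi with rfl | hi
            · exact cst
            · rw [Finset.mem_singleton.1 hi]
              exact one_le_coef_of_free hr (Ne.symm hrs))
          rw [Finset.sum_pair (fun h => hrt (Option.some.inj h).symm),
            max_eq_left (show (0 : ℝ) ≤ z (some t) by linarith), hr0] at this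
          linarith [hle s]
        have Lt' : z (some s) + z (some r) - 2 * Ng S z ≤ Lf M t z := by
          have := Lf_ge M hsup t {some s, some r} (by
            intro i hi
            rcases Finset.mem_insert.1 hi with rfl | hi
            · exact hsS
            · rw [Finset.mem_singleton.1 hi]; exact hrS) (by
            intro i hi
            rcases Finset.mem_insert.1 hi with rfl | hi
            · exact cts
            · rw [Finset.mem_singleton.1 hi]
              exact one_le_coef_of_free hr (Ne.symm hrt))
          rw [Finset.sum_pair (fun h => hrs (Option.some.inj h).symm),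
            max_eq_left (show (0 : ℝ) ≤ z (some s) by linarith), hr0] at this
          linarith [hle t]
        linarith

/-- **The exponent one.** -/
theorem exponent_one {S : Finset (Option B)} (hSn : none ∈ S) {y : Option B →₀ ℝ}
    (hy : Good M S y) {t u : B} (ht : some t ∈ S) (hf : Free1 M t) (hut : u ≠ t)
    (hu : Dd M (Z M t 1 y) u) : False := by
  obtain ⟨hsup, hcase⟩ := hy
  set z := Z M t 1 y with hz
  have hzs : z.support ⊆ S := Z_support M hsup ht 1
  have huS := mem_of_Dd hzs hu
  obtain ⟨hu1, hu2⟩ := hu
  set N' : ℝ := ∑ i ∈ S with i ≠ some t, max (-y i) 0 with hN'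
  set P' : ℝ := ∑ i ∈ S with i ≠ some t, max (y i) 0 with hP'
  have hN'0 : 0 ≤ N' := Finset.sum_nonneg fun i _ => le_max_right _ _
  have hP'0 : 0 ≤ P' := Finset.sum_nonneg fun i _ => le_max_right _ _
  have hL : P' - 2 * N' ≤ Lf M t y := Lf_ge M hsup t (S.filter (· ≠ some t))
    (Finset.filter_subset _ _) (fun i hi => one_le_coef_free hf i (Finset.mem_filter.1 hi).2)
  have hzt : z (some t) = 16 * y (some t) + 4 * Lf M t y := by
    rw [hz, Z_self]; ring
  have hbig : 2 * (P' + N') ≤ z (some t) := by
    rw [hzt]
    rcases hcase with ⟨hp, hp1⟩ | ⟨s, hs, hs1, hs2⟩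
    · have hN0 : N' = 0 := Finset.sum_eq_zero fun i _ => max_eq_right (by linarith [hp i])
      have := hp1 _ ht
      rw [hN0] at hL ⊢
      linarith
    · rw [Ng_split ht, ← hN'] at hs2
      have hNt0 : 0 ≤ max (-y (some t)) 0 := le_max_right _ _
      have hyNt := le_max_left (-y (some t)) 0
      by_cases hst : s = t
      · subst hst; linarith
      · have hne : (some s : Option B) ≠ some t := fun h => hst (Option.some.inj h)
        have hsS : some s ∈ S := by
          apply hsup
          rw [Finsupp.mem_support_iff]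
          intro h
          linarith
        have hysP : y (some s) ≤ P' := by
          have := Finset.single_le_sum (s := S.filter (· ≠ some t)) (f := fun i => max (y i) 0)
            (fun i _ => le_max_right (y i) 0) (Finset.mem_filter.2 ⟨hsS, hne⟩)
          exact (le_max_left _ _).trans this
        linarith
  -- the form `L_u` at `z`
  have hne : (some t : Option B) ≠ some u := fun h => hut (Option.some.inj h).symm
  have hLu := Lf_ge M hzs u {some t} (by simpa using ht) (by
    intro i hi
    rw [Finset.mem_singleton] at hi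
    rw [hi]
    exact one_le_coef_of_free hf hut)
  have hzt0 : 0 ≤ z (some t) := by linarith
  rw [Finset.sum_singleton, max_eq_left hzt0] at hLu
  -- the negative parts away from `u`
  have hR : z (some u) + ∑ i ∈ S with i ≠ some u, max (-z i) 0 ≤ P' + N' := by
    have huf : some u ∈ S.filter (· ≠ some t) := Finset.mem_filter.2 ⟨huS, Ne.symm hne⟩
    have e1 : P' + N' = ∑ i ∈ S with i ≠ some t, |y i| := by
      rw [hP', hN', ← Finset.sum_add_distrib]
      apply Finset.sum_congr rfl
      intro i _
      rcases le_total 0 (y i) with h | h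
      · rw [max_eq_left h, max_eq_right (by linarith), abs_of_nonneg h, add_zero]
      · rw [max_eq_right h, max_eq_left (by linarith), abs_of_nonpos h, zero_add]
    rw [e1, ← Finset.add_sum_erase _ _ huf]
    have hzu : z (some u) = -y (some u) := by
      rw [hz, Z_ne M t 1 y _ (Ne.symm hne), pow_one, neg_one_mul]
    apply add_le_add
    · rw [hzu]; exact neg_le_abs _
    · have e2 : ∑ i ∈ S with i ≠ some u, max (-z i) 0 =
          ∑ i ∈ (S.filter (· ≠ some t)).erase (some u), max (-z i) 0 := by
        symm
        apply Finset.sum_subset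
        · intro i hi
          rw [Finset.mem_erase, Finset.mem_filter] at hi
          exact Finset.mem_filter.2 ⟨hi.2.1, hi.1⟩
        · intro i hi hi'
          have hit : i = some t := by
            by_contra h
            rw [Finset.mem_filter] at hi
            exact hi' (Finset.mem_erase.2 ⟨hi.2, Finset.mem_filter.2 ⟨hi.1, h⟩⟩)
          rw [hit]
          exact max_eq_right (by linarith)
      rw [e2]
      apply Finset.sum_le_sum
      intro i hi
      rw [Finset.mem_erase, Finset.mem_filter] at hi
      rw [hz, Z_ne M t 1 y i hi.2.2, pow_one, neg_one_mul, neg_neg]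
      exact max_le (le_abs_self _) (abs_nonneg _)
  linarith

end Pool.Agent.PWM
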