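import Pool.Agent.PWM.Sq

/-!
# Squares of all generators and cubes of the generators which commute with no other one: the
natural map from the braid group is injective on the submonoid
-/

set_option autoImplicit false

open Pool.Agent.HeckeCox

open scoped Classical

namespace Pool.Agent.PWM

variable {B : Type*} (M : CoxeterMatrix B)

/-! ### The representation at `v = 4` -/

/-- the data with `q = 1 / 4` and all factors `-1` -/
noncomputable def DQ : RD M where
  q := 1 / 4
  hq := by norm_num
  be := fun _ => -1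
  hbe := by intro s t _; norm_num
  hd := by
    intro m _ h
    have h1 : (289 / 16 : ℝ) = 4 * Real.cos (Real.pi / m) ^ 2 := by
      apply Complex.ofReal_injective
      rw [← h]
      push_cast
      norm_num
    have h2 := Real.cos_sq_le_one (Real.pi / m)
    linarith

theorem act_letter (t : B) (k : ℕ) (y : Option B →₀ ℝ) :
    ((ur (DQ M) (hunit M t ^ k) : (Module.End ℂ (Option B →₀ ℂ))ˣ) :
      Module.End ℂ (Option B →₀ ℂ)) (emb y) = (-(1 / 4) : ℂ) ^ k • emb (Z M t k y) := by
  have hz := Ts_zpow (DQ M) t (fun n => ((-4 : ℂ) ^ n - (1 / 4 : ℂ) ^ n) / (-(17 / 4)))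
    (by simp) (by
      intro n
      show ((-4 : ℂ) ^ (n + 1) - (1 / 4 : ℂ) ^ (n + 1)) / (-(17 / 4)) =
        -((1 / 4 : ℂ))⁻¹ * (((-4 : ℂ) ^ n - (1 / 4 : ℂ) ^ n) / (-(17 / 4))) + (1 / 4 : ℂ) ^ n
      rw [zpow_add_one₀ (by norm_num), zpow_add_one₀ (by norm_num)]
      norm_num
      ring) (k : ℤ) (emb y)
  rw [zpow_natCast, zpow_natCast] at hz
  rw [hz]
  have e1 : (-(1 / 4) : ℂ) ^ k * 16 ^ k = (-4) ^ k := by rw [← mul_pow]; norm_num
  have e2 : (-(1 / 4) : ℂ) ^ k * (-1) ^ k = (1 / 4) ^ k := by rw [← mul_pow]; norm_num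
  ext i
  rw [Finsupp.smul_apply, emb_apply]
  show _ = (-(1 / 4) : ℂ) ^ k * ((Z M t k y i : ℝ) : ℂ)
  by_cases hi : i = some t
  · subst hi
    rw [Z_self]
    simp only [Finsupp.add_apply, Finsupp.smul_apply, smul_eq_mul, emb_apply, ph_emb, ee,
      Finsupp.single_eq_same]
    show (1 / 4 : ℂ) ^ k * (y (some t) : ℂ) + (((-4 : ℂ) ^ (k : ℤ) - (1 / 4 : ℂ) ^ (k : ℤ)) /
      (-(17 / 4)) * (-((1 / 4 : ℂ) + (1 / 4 : ℂ)⁻¹) * (y (some t) : ℂ) +
        -1 * (Lf M t y : ℂ))) * 1 = _
    rw [zpow_natCast, zpow_natCast]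
    push_cast
    linear_combination (-(y (some t) : ℂ) - 4 / 17 * (Lf M t y : ℂ)) * e1 +
      4 / 17 * (Lf M t y : ℂ) * e2
  · rw [Z_ne M t k y i hi]
    simp only [Finsupp.add_apply, Finsupp.smul_apply, smul_eq_mul, emb_apply, ee,
      Finsupp.single_apply, if_neg (Ne.symm hi)]
    show (1 / 4 : ℂ) ^ k * (y i : ℂ) + _ * 0 = _
    push_cast
    linear_combination (-(y i : ℂ)) * e2

/-! ### Words -/

/-- admissible letters: `(t, k)` stands for `σ_t ^ k` -/
def Adm (S : Finset (Option B)) (l : B × ℕ) : Prop :=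
  some l.1 ∈ S ∧ 2 ≤ l.2 ∧ (Even l.2 ∨ Free1 M l.1)

/-- the element of the braid group given by a word -/
noncomputable def gB (w : List (B × ℕ)) : BraidGroup M :=
  (w.map fun l => (PresentedGroup.of l.1 : BraidGroup M) ^ l.2).prod

/-- the length of the element -/
def wlen (w : List (B × ℕ)) : ℕ := (w.map Prod.snd).sum

/-- the action of a word -/
noncomputable def Zw (w : List (B × ℕ)) (x : Option B →₀ ℝ) : Option B →₀ ℝ :=
  w.foldr (fun l y => Z M l.1 l.2 y) x

theorem gB_nil : gB M [] = 1 := by simp [gB]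

theorem gB_cons (l : B × ℕ) (w : List (B × ℕ)) :
    gB M (l :: w) = (PresentedGroup.of l.1 : BraidGroup M) ^ l.2 * gB M w := by
  simp [gB]

theorem gB_append (w w' : List (B × ℕ)) : gB M (w ++ w') = gB M w * gB M w' := by
  simp [gB]

theorem wlen_nil : wlen ([] : List (B × ℕ)) = 0 := by simp [wlen]

theorem wlen_cons (l : B × ℕ) (w : List (B × ℕ)) : wlen (l :: w) = l.2 + wlen w := by
  simp [wlen]

theorem Zw_nil (x : Option B →₀ ℝ) : Zw M [] x = x := rfl

theorem Zw_cons (l : B × ℕ) (w : List (B × ℕ)) (x : Option B →₀ ℝ) :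
    Zw M (l :: w) x = Z M l.1 l.2 (Zw M w x) := rfl

/-- `g` acts on `x` by `y`, up to the scalar of degree `n` -/
def Act (x : Option B →₀ ℝ) (g : BraidGroup M) (n : ℕ) (y : Option B →₀ ℝ) : Prop :=
  ((ur (DQ M) (rho M g) : (Module.End ℂ (Option B →₀ ℂ))ˣ) :
    Module.End ℂ (Option B →₀ ℂ)) (emb x) = (-(1 / 4) : ℂ) ^ n • emb y ∧
  y none = (-1) ^ n * x none

theorem Act.one (x : Option B →₀ ℝ) : Act M x 1 0 x := by
  refine ⟨?_, by simp⟩
  rw [map_one, map_one, Units.val_one, Module.End.one_apply, pow_zero, one_smul]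

theorem Act.mul {x : Option B →₀ ℝ} {g : BraidGroup M} {n : ℕ} {y : Option B →₀ ℝ}
    (h : Act M x g n y) (t : B) (k : ℕ) :
    Act M x ((PresentedGroup.of t : BraidGroup M) ^ k * g) (k + n) (Z M t k y) := by
  refine ⟨?_, ?_⟩
  · rw [map_mul, map_mul, Units.val_mul, Module.End.mul_apply, h.1, map_smul, map_pow, rho_of,
      act_letter, smul_smul, pow_add, mul_comm]
  · rw [Z_ne M t k y none (by simp), h.2, pow_add, mul_assoc]

theorem Act.word (x : Option B →₀ ℝ) (w : List (B × ℕ)) :
    Act M x (gB M w) (wlen w) (Zw M w x) := by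
  induction w with
  | nil => rw [gB_nil, wlen_nil, Zw_nil]; exact Act.one M x
  | cons l w ih => rw [gB_cons, wlen_cons, Zw_cons]; exact Act.mul M ih l.1 l.2

theorem emb_inj {x y : Option B →₀ ℝ} (h : emb x = emb y) : x = y := by
  ext i
  have h1 := DFunLike.congr_fun h i
  rw [emb_apply, emb_apply] at h1
  exact Complex.ofReal_injective h1

/-- The length and the vector are determined by the image in the Hecke algebra. -/
theorem Act.unique {x : Option B →₀ ℝ} (hx : x none = 1) {g g' : BraidGroup M} {n n' : ℕ}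
    {y y' : Option B →₀ ℝ} (h : Act M x g n y) (h' : Act M x g' n' y')
    (e : rho M g = rho M g') : n = n' ∧ y = y' := by
  have h1 : (-(1 / 4) : ℂ) ^ n • emb y = (-(1 / 4) : ℂ) ^ n' • emb y' := by
    rw [← h.1, ← h'.1, e]
  have key : ∀ m : ℕ, (-(1 / 4) : ℂ) ^ m * (((-1 : ℝ) ^ m * 1 : ℝ) : ℂ) =
      (((1 / 4 : ℝ) ^ m : ℝ) : ℂ) := by
    intro m
    push_cast
    rw [mul_one, ← mul_pow]
    norm_num
  have h2 := DFunLike.congr_fun h1 none
  rw [Finsupp.smul_apply, Finsupp.smul_apply, emb_apply, emb_apply, h.2, h'.2, hx, smul_eq_mul,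
    smul_eq_mul, key, key] at h2
  have h3 : (1 / 4 : ℝ) ^ n = (1 / 4 : ℝ) ^ n' := Complex.ofReal_injective h2
  have hn : n = n' := (pow_right_injective₀ (by norm_num) (by norm_num)) h3
  subst hn
  refine ⟨rfl, emb_inj ?_⟩
  exact smul_right_injective _ (pow_ne_zero n (by norm_num : (-(1 / 4) : ℂ) ≠ 0)) h1

variable {M}

/-! ### Descents of words -/

section

variable {S : Finset (Option B)} (hSn : none ∈ S) {x : Option B →₀ ℝ} (hx : Good M S x)
  (hxd : ∀ t, ¬ Dd M x t)

include hSn hx in
theorem good_word (w : List (B × ℕ)) (hw : ∀ l ∈ w, Adm M S l) : Good M S (Zw M w x) := by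
  induction w with
  | nil => exact hx
  | cons l w ih =>
    have hl := hw l List.mem_cons_self
    rw [Zw_cons]
    exact (step hSn (ih fun l' h => hw l' (List.mem_cons_of_mem _ h)) hl.1 hl.2.1 hl.2.2).1

include hSn hx in
theorem desc_cons (l : B × ℕ) (w : List (B × ℕ)) (hw : ∀ l' ∈ l :: w, Adm M S l') :
    Dd M (Zw M (l :: w) x) l.1 := by
  have hl := hw l List.mem_cons_self
  rw [Zw_cons]
  exact (step hSn (good_word hSn hx w fun l' h => hw l' (List.mem_cons_of_mem _ h))
    hl.1 hl.2.1 hl.2.2).2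

/-- the powers of commuting generators commute -/
theorem comm_pow {s t : B} (h : M s t = 2) (j k : ℕ) :
    (PresentedGroup.of s : BraidGroup M) ^ j * (PresentedGroup.of t : BraidGroup M) ^ k =
      (PresentedGroup.of t : BraidGroup M) ^ k * (PresentedGroup.of s : BraidGroup M) ^ j := by
  have hst : s ≠ t := by
    rintro rfl
    rw [M.diagonal] at h
    omega
  have hc : Commute (PresentedGroup.of s : BraidGroup M) (PresentedGroup.of t) := by
    have h1 : PresentedGroup.mk (braidRels M)
        (altProd (FreeGroup.of s) (FreeGroup.of t) (M s t) *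
          (altProd (FreeGroup.of t) (FreeGroup.of s) (M s t))⁻¹) = 1 :=
      PresentedGroup.one_of_mem ⟨s, t, hst, by omega, rfl⟩
    rw [map_mul, map_inv, mul_inv_eq_one, map_altProd, map_altProd, h] at h1
    simp only [altProd, mul_one] at h1
    exact h1
  exact (hc.pow_pow j k).eq

include hSn hx hxd in
/-- **A descent of a word can be moved to the front.** -/
theorem front {t : B} (w : List (B × ℕ)) (hw : ∀ l ∈ w, Adm M S l) (ht : Dd M (Zw M w x) t) :
    ∃ k w', Adm M S (t, k) ∧ (∀ l ∈ w', Adm M S l) ∧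
      gB M w = (PresentedGroup.of t : BraidGroup M) ^ k * gB M w' ∧
      wlen w = k + wlen w' ∧ w'.length < w.length := by
  induction w with
  | nil => exact absurd ht (hxd t)
  | cons l v ih =>
    obtain ⟨s, j⟩ := l
    have hv : ∀ l ∈ v, Adm M S l := fun l' h => hw l' (List.mem_cons_of_mem _ h)
    have hl : Adm M S (s, j) := hw _ List.mem_cons_self
    by_cases hst : t = s
    · subst hst
      exact ⟨j, v, hl, hv, gB_cons M _ _, wlen_cons _ _, by simp⟩
    · have hgood := good_word hSn hx _ hw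
      have hds := desc_cons hSn hx _ _ hw
      have h2 : M s t = 2 := by
        by_contra h
        exact descents_commute hgood hst h hds ht
      have hje : Even j := by
        rcases hl.2.2 with h | h
        · exact h
        · exact absurd h2 (h t hst)
      have hne : (some t : Option B) ≠ some s := fun h => hst (Option.some.inj h)
      have ht' : Dd M (Zw M v x) t := by
        obtain ⟨h3, h4⟩ := ht
        rw [Zw_cons] at h3 h4
        rw [Z_ne M s j _ _ hne, hje.neg_one_pow, one_mul] at h3 h4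
        rw [Lf_Z_two M (by rwa [M.symmetric t s]), hje.neg_one_pow, one_mul] at h4
        exact ⟨h3, h4⟩
      obtain ⟨k, w', hk, hw', e1, e2, e3⟩ := ih hv ht'
      refine ⟨k, (s, j) :: w', hk, ?_, ?_, ?_, ?_⟩
      · intro l hl'
        rcases List.mem_cons.1 hl' with rfl | hl'
        · exact hl
        · exact hw' l hl'
      · rw [gB_cons, gB_cons, e1, ← mul_assoc, ← mul_assoc]
        show (PresentedGroup.of s : BraidGroup M) ^ j * (PresentedGroup.of t : BraidGroup M) ^ k *
          gB M w' = (PresentedGroup.of t : BraidGroup M) ^ k *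
            (PresentedGroup.of s : BraidGroup M) ^ j * gB M w'
        rw [comm_pow h2]
      · rw [wlen_cons, wlen_cons, e2]
        ring
      · simpa using e3

include hSn hx hxd in
/-- **All letters of a descent can be collected at the front.** -/
theorem collect {t : B} (n : ℕ) : ∀ w : List (B × ℕ), w.length ≤ n → (∀ l ∈ w, Adm M S l) →
    Dd M (Zw M w x) t → ∃ k w', Adm M S (t, k) ∧ (∀ l ∈ w', Adm M S l) ∧
      gB M w = (PresentedGroup.of t : BraidGroup M) ^ k * gB M w' ∧
      wlen w = k + wlen w' ∧ ¬ Dd M (Zw M w' x) t := by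
  induction n with
  | zero =>
    intro w hn hw ht
    rw [List.length_eq_zero_iff.1 (Nat.le_zero.1 hn)] at ht
    exact absurd ht (hxd t)
  | succ n ih =>
    intro w hn hw ht
    obtain ⟨k, v, hk, hv, e1, e2, e3⟩ := front hSn hx hxd w hw ht
    by_cases hd : Dd M (Zw M v x) t
    · obtain ⟨k', w', hk', hw', e1', e2', e3'⟩ := ih v (by omega) hv hd
      refine ⟨k + k', w', ⟨hk.1, ?_, ?_⟩, hw', ?_, by omega, e3'⟩
      · have := hk.2.1
        show 2 ≤ k + k'
        have h2 : 2 ≤ k := hk.2.1
        omega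
      · rcases hk.2.2 with h | h
        · rcases hk'.2.2 with h' | h'
          · exact Or.inl (Even.add h h')
          · exact Or.inr h'
        · exact Or.inr h
      · rw [e1, e1', pow_add, mul_assoc]
    · exact ⟨k, v, hk, hv, e1, e2, hd⟩

include hSn hx hxd in
/-- The exponents at a common descent agree. -/
theorem not_lt_exp {t : B} (hxn : x none = 1) {k k' : ℕ} {v v' : List (B × ℕ)}
    (hk : Adm M S (t, k)) (hk' : Adm M S (t, k')) (hv : ∀ l ∈ v, Adm M S l)
    (hv' : ∀ l ∈ v', Adm M S l) (hd' : ¬ Dd M (Zw M v' x) t)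
    (e : rho M ((PresentedGroup.of t : BraidGroup M) ^ k * gB M v) =
      rho M ((PresentedGroup.of t : BraidGroup M) ^ k' * gB M v')) : ¬ k' < k := by
  intro hlt
  obtain ⟨d, rfl⟩ : ∃ d, k = k' + d := ⟨k - k', by omega⟩
  have e' : rho M ((PresentedGroup.of t : BraidGroup M) ^ d * gB M v) = rho M (gB M v') := by
    rw [pow_add, mul_assoc, map_mul, map_mul (rho M) _ (gB M v')] at e
    exact mul_left_cancel e
  obtain ⟨h1, h2⟩ := Act.unique M hxn (Act.mul M (Act.word M x v) t d) (Act.word M x v') e'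
  have hgv := good_word hSn hx v hv
  have hpar : Even d ∨ Free1 M t := by
    rcases hk.2.2 with h | h
    · rcases hk'.2.2 with h' | h'
      · left
        exact (Nat.even_add.1 h).1 h'
      · exact Or.inr h'
    · exact Or.inr h
  by_cases hd2 : 2 ≤ d
  · apply hd'
    rw [← h2]
    exact (step hSn hgv hk.1 hd2 hpar).2
  · have hd1 : d = 1 := by omega
    subst hd1
    have hf : Free1 M t := by
      rcases hpar with h | h
      · exact absurd h (by decide)
      · exact h
    cases v' with
    | nil =>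
      rw [wlen_nil] at h1
      omega
    | cons l v' =>
      have hdl := desc_cons hSn hx l v' hv'
      by_cases hlt' : l.1 = t
      · rw [hlt'] at hdl
        exact hd' hdl
      · rw [← h2] at hdl
        exact exponent_one hSn hgv hk.1 hf hlt' hdl

include hSn hx hxd in
/-- **Injectivity on words.** -/
theorem inj_words (hxn : x none = 1) (n : ℕ) : ∀ w w' : List (B × ℕ), wlen w ≤ n →
    (∀ l ∈ w, Adm M S l) → (∀ l ∈ w', Adm M S l) → rho M (gB M w) = rho M (gB M w') →
    gB M w = gB M w' := by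
  induction n with
  | zero =>
    intro w w' hn hw hw' e
    have hnil : ∀ v : List (B × ℕ), (∀ l ∈ v, Adm M S l) → wlen v = 0 → v = [] := by
      intro v hv h0
      cases v with
      | nil => rfl
      | cons l v =>
        rw [wlen_cons] at h0
        have := (hv l List.mem_cons_self).2.1
        omega
    obtain ⟨h1, -⟩ := Act.unique M hxn (Act.word M x w) (Act.word M x w') e
    rw [hnil w hw (by omega), hnil w' hw' (by omega)]
  | succ n ih =>
    intro w w' hn hw hw' e
    obtain ⟨h1, h2⟩ := Act.unique M hxn (Act.word M x w) (Act.word M x w') e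
    cases w with
    | nil =>
      cases w' with
      | nil => rfl
      | cons l v =>
        rw [wlen_cons, wlen_nil] at h1
        have := (hw' l List.mem_cons_self).2.1
        omega
    | cons l v0 =>
      have hd := desc_cons hSn hx l v0 hw
      have hd' := hd
      rw [h2] at hd'
      obtain ⟨k, v, hk, hv, a1, a2, a3⟩ := collect hSn hx hxd _ _ le_rfl hw hd
      obtain ⟨k', v', hk', hv', b1, b2, b3⟩ := collect hSn hx hxd _ _ le_rfl hw' hd'
      rw [a1, b1] at e ⊢
      have c1 := not_lt_exp hSn hx hxd hxn hk hk' hv hv' b3 e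
      have c2 := not_lt_exp hSn hx hxd hxn hk' hk hv' hv a3 e.symm
      have c3 : k = k' := by omega
      subst c3
      rw [map_mul, map_mul (rho M) _ (gB M v')] at e
      rw [ih v v' (by have := hk.2.1; show wlen v ≤ n; have h3 : 2 ≤ k := this; omega) hv hv'
        (mul_left_cancel e)]

end

/-! ### The theorem -/

/-- The generators of the submonoid: the squares of all `σ_s` and the cubes of the `σ_s` such that
`s` commutes with no other generator. -/
def sqGens (M : CoxeterMatrix B) : Set (BraidGroup M) :=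
  {g | ∃ s, g = (PresentedGroup.of s : BraidGroup M) ^ 2 ∨
    ((∀ t, t ≠ s → M s t ≠ 2) ∧ g = (PresentedGroup.of s : BraidGroup M) ^ 3)}

theorem exists_words {g : BraidGroup M} (hg : g ∈ Submonoid.closure (sqGens M)) :
    ∃ w : List (B × ℕ), (∀ l ∈ w, 2 ≤ l.2 ∧ (Even l.2 ∨ Free1 M l.1)) ∧ g = gB M w := by
  induction hg using Submonoid.closure_induction with
  | mem g hg =>
    obtain ⟨s, rfl | ⟨h, rfl⟩⟩ := hg
    · exact ⟨[(s, 2)], by simp, by simp [gB]⟩
    · refine ⟨[(s, 3)], ?_, by simp [gB]⟩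
      intro l hl
      rw [List.mem_singleton.1 hl]
      exact ⟨by norm_num, Or.inr h⟩
  | one => exact ⟨[], by simp, (gB_nil M).symm⟩
  | mul g g' _ _ ih ih' =>
    obtain ⟨w, hw, rfl⟩ := ih
    obtain ⟨w', hw', rfl⟩ := ih'
    refine ⟨w ++ w', ?_, (gB_append M w w').symm⟩
    intro l hl
    rcases List.mem_append.1 hl with h | h
    · exact hw l h
    · exact hw' l h

variable (M)

/-- **Main theorem.** -/
theorem inj_squares : Set.InjOn (rho M) (Submonoid.closure (sqGens M) : Set (BraidGroup M)) := by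
  intro g hg g' hg' e
  obtain ⟨w, hw, rfl⟩ := exists_words hg
  obtain ⟨w', hw', rfl⟩ := exists_words hg'
  set S : Finset (Option B) := insert none ((w ++ w').toFinset.image fun l => some l.1) with hS
  have hSn : none ∈ S := Finset.mem_insert_self _ _
  have hmem : ∀ l ∈ w ++ w', some l.1 ∈ S := fun l hl =>
    Finset.mem_insert_of_mem (Finset.mem_image.2 ⟨l, List.mem_toFinset.2 hl, rfl⟩)
  set x : Option B →₀ ℝ := Finsupp.indicator S (fun _ _ => 1) with hx
  have hx1 : ∀ i ∈ S, x i = 1 := fun i hi => by rw [hx, Finsupp.indicator_of_mem hi]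
  have hx0 : ∀ i, i ∉ S → x i = 0 := fun i hi => by rw [hx, Finsupp.indicator_of_notMem hi]
  have hxn : ∀ i, 0 ≤ x i ∧ x i ≤ 1 := by
    intro i
    by_cases hi : i ∈ S
    · rw [hx1 i hi]; norm_num
    · rw [hx0 i hi]; norm_num
  have hgood : Good M S x := by
    refine ⟨?_, Or.inl ⟨fun i => (hxn i).1, fun i hi => (hx1 i hi).ge⟩⟩
    intro i hi
    by_contra h
    exact (Finsupp.mem_support_iff.1 hi) (hx0 i h)
  have hxd : ∀ t, ¬ Dd M x t := by
    intro t ht
    have := (hxn (some t)).2
    linarith [ht.1]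
  refine inj_words hSn hgood hxd (hx1 none hSn) _ w w' le_rfl ?_ ?_ e
  · intro l hl
    exact ⟨hmem l (List.mem_append_left _ hl), hw l hl⟩
  · intro l hl
    exact ⟨hmem l (List.mem_append_right _ hl), hw' l hl⟩

end Pool.Agent.PWM
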